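import Mathlib

/-! # Algebras of operators of finite rank with an involution which is locally an adjoint -/

namespace Pool.Agent.J6H26.FR

open Module

variable {E : Type*} [NormedAddCommGroup E] [NormedSpace ℝ E]

/-- the rank of an operator -/
noncomputable def rk (a : E →L[ℝ] E) : ℕ := finrank ℝ (LinearMap.range (a : E →ₗ[ℝ] E))

/-- the operator `g a g⁻¹` -/
noncomputable def cj (g : E ≃ₗᵢ[ℝ] E) (a : E →L[ℝ] E) : E →L[ℝ] E :=
  ((g.toContinuousLinearEquiv : E →L[ℝ] E).comp a).comp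
    (g.symm.toContinuousLinearEquiv : E →L[ℝ] E)

lemma cj_apply (g : E ≃ₗᵢ[ℝ] E) (a : E →L[ℝ] E) (x : E) : cj g a x = g (a (g.symm x)) := rfl

lemma cj_apply' (g : E ≃ₗᵢ[ℝ] E) (a : E →L[ℝ] E) (x : E) : cj g a (g x) = g (a x) := by
  rw [cj_apply, g.symm_apply_apply]

lemma cj_mul (g : E ≃ₗᵢ[ℝ] E) (a b : E →L[ℝ] E) : cj g (a * b) = cj g a * cj g b := by
  ext x
  show g (a (b (g.symm x))) = g (a (g.symm (g (b (g.symm x)))))
  rw [g.symm_apply_apply]

lemma cj_smul (g : E ≃ₗᵢ[ℝ] E) (t : ℝ) (a : E →L[ℝ] E) : cj g (t • a) = t • cj g a := by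
  ext x
  show g ((t • a) (g.symm x)) = t • g (a (g.symm x))
  rw [_root_.smul_apply, g.map_smul]

lemma cj_inv (g : E ≃ₗᵢ[ℝ] E) (a : E →L[ℝ] E) : cj g⁻¹ (cj g a) = a := by
  ext x
  show g.symm (g (a (g.symm (g x)))) = a x
  rw [g.symm_apply_apply, g.symm_apply_apply]

lemma cj_inv' (g : E ≃ₗᵢ[ℝ] E) (a : E →L[ℝ] E) : cj g (cj g⁻¹ a) = a := by
  have := cj_inv g⁻¹ a
  rwa [inv_inv] at this

lemma norm_cj_apply_le (g : E ≃ₗᵢ[ℝ] E) (a : E →L[ℝ] E) (x : E) :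
    ‖cj g a x‖ ≤ ‖a‖ * ‖x‖ := by
  rw [cj_apply, g.norm_map]
  refine (a.le_opNorm _).trans (le_of_eq ?_)
  rw [g.symm.norm_map]

/-- `P` is a space of pairs `(a, a')` of operators of finite rank, closed under products, exchange
and conjugation by `G`, such that locally `a'` is the adjoint of `a` for some inner product -/
structure HP (G : Subgroup (E ≃ₗᵢ[ℝ] E)) (P : Submodule ℝ ((E →L[ℝ] E) × (E →L[ℝ] E))) : Prop where
  swap : ∀ a b, (a, b) ∈ P → (b, a) ∈ P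
  mul : ∀ a a' b b', (a, a') ∈ P → (b, b') ∈ P → (a * b, b' * a') ∈ P
  conj : ∀ g ∈ G, ∀ a a', (a, a') ∈ P → (cj g a, cj g a') ∈ P
  fin : ∀ a a', (a, a') ∈ P → FiniteDimensional ℝ (LinearMap.range (a : E →ₗ[ℝ] E))
  form : ∀ a a', (a, a') ∈ P → ∀ X₀ : Submodule ℝ E, FiniteDimensional ℝ X₀ →
    ∃ X : Submodule ℝ E, X₀ ≤ X ∧ FiniteDimensional ℝ X ∧ (∀ x ∈ X, a x ∈ X) ∧
      (∀ x ∈ X, a' x ∈ X) ∧ ∃ B : E →ₗ[ℝ] E →ₗ[ℝ] ℝ, (∀ x ∈ X, ∀ y ∈ X, B x y = B y x) ∧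
        (∀ x ∈ X, x ≠ 0 → 0 < B x x) ∧ ∀ x ∈ X, ∀ y ∈ X, B (a x) y = B x (a' y)

theorem exists_eig {W : Type*} [AddCommGroup W] [Module ℝ W] [FiniteDimensional ℝ W] [Nontrivial W]
    (B : W →ₗ[ℝ] W →ₗ[ℝ] ℝ) (hs : ∀ x y, B x y = B y x) (hp : ∀ x, x ≠ 0 → 0 < B x x)
    (c : W →ₗ[ℝ] W) (hc : ∀ x y, B (c x) y = B x (c y)) :
    ∃ (t : ℝ) (v : W), v ≠ 0 ∧ c v = t • v := by
  let core : InnerProductSpace.Core ℝ W :=
    { inner := fun u v => B u v
      conj_inner_symm := fun u v => by simp [hs v u]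
      re_inner_nonneg := fun u => by
        by_cases h : u = 0
        · simp [h]
        · simpa using (hp u h).le
      add_left := fun u v w => by simp
      smul_left := fun u v r => by simp
      definite := fun u h => by
        by_contra hne
        exact (hp u hne).ne' h }
  let _ : NormedAddCommGroup W := core.toNormedAddCommGroup
  let _ : InnerProductSpace ℝ W := InnerProductSpace.ofCore core.toCore
  have hsym : c.IsSymmetric := fun x y => hc x y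
  obtain ⟨v, hv⟩ := hsym.hasEigenvalue_iSup_of_finiteDimensional.exists_hasEigenvector
  exact ⟨_, v, hv.2, by simpa using hv.apply_eq_smul⟩

theorem finrank_map_lt {M : Submodule ℝ E} [FiniteDimensional ℝ M] (b : E →ₗ[ℝ] E) {x : E}
    (hxM : x ∈ M) (hx0 : x ≠ 0) (hbx : b x = 0) : finrank ℝ (M.map b) < finrank ℝ M := by
  have h2 := LinearMap.finrank_range_add_finrank_ker (b.domRestrict M)
  have h3 : LinearMap.range (b.domRestrict M) = M.map b := by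
    rw [LinearMap.range_domRestrict]
  rw [h3] at h2
  have h4 : 0 < finrank ℝ (LinearMap.ker (b.domRestrict M)) := by
    rw [finrank_pos_iff_exists_ne_zero]
    refine ⟨⟨⟨x, hxM⟩, ?_⟩, ?_⟩
    · rw [LinearMap.mem_ker]; exact hbx
    · intro h
      apply hx0
      have := congrArg (fun z => ((z : M) : E)) (congrArg Subtype.val h)
      simpa using this
  omega

namespace HP

variable {G : Subgroup (E ≃ₗᵢ[ℝ] E)} {P : Submodule ℝ ((E →L[ℝ] E) × (E →L[ℝ] E))}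

theorem adj_zero (H : HP G P) {b : E →L[ℝ] E} (h : ((0 : E →L[ℝ] E), b) ∈ P) : b = 0 := by
  ext x
  obtain ⟨X, hX, -, -, hbX, B, -, hpos, hadj⟩ := H.form _ _ h (ℝ ∙ x) inferInstance
  have hx : x ∈ X := hX (Submodule.mem_span_singleton_self x)
  by_contra hne
  have h1 := hpos (b x) (hbX x hx) hne
  have h2 := hadj (b x) (hbX x hx) x hx
  rw [← h2] at h1
  simp at h1

theorem adj_unique (H : HP G P) {a b b' : E →L[ℝ] E} (h : (a, b) ∈ P) (h' : (a, b') ∈ P) :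
    b = b' := by
  have h1 := P.sub_mem h h'
  rw [Prod.mk_sub_mk, sub_self] at h1
  exact sub_eq_zero.1 (H.adj_zero h1)

/-- `a' a` vanishes only if `a` does -/
theorem ker_eq (H : HP G P) {a a' : E →L[ℝ] E} (h : (a, a') ∈ P) {x : E} (hx : a' (a x) = 0) :
    a x = 0 := by
  obtain ⟨X, hX, -, haX, -, B, -, hpos, hadj⟩ := H.form _ _ h (ℝ ∙ x) inferInstance
  have hxX : x ∈ X := hX (Submodule.mem_span_singleton_self x)
  by_contra hne
  have h1 := hpos (a x) (haX x hxX) hne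
  rw [hadj x hxX (a x) (haX x hxX), hx, map_zero] at h1
  exact lt_irrefl _ h1

/-- `f` is a self-adjoint projection of minimal rank -/
structure Mn (P : Submodule ℝ ((E →L[ℝ] E) × (E →L[ℝ] E))) (f : E →L[ℝ] E) : Prop where
  mem : (f, f) ∈ P
  idem : f * f = f
  ne : f ≠ 0
  le : ∀ b b', (b, b') ∈ P → b ≠ 0 → rk f ≤ rk b

theorem rk_cj (g : E ≃ₗᵢ[ℝ] E) (b : E →L[ℝ] E) : rk (cj g b) = rk b := by
  unfold rk
  have h1 : LinearMap.range (cj g b : E →ₗ[ℝ] E) =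
      (LinearMap.range (b : E →ₗ[ℝ] E)).map (g.toLinearEquiv : E →ₗ[ℝ] E) := by
    ext y
    simp only [LinearMap.mem_range, Submodule.mem_map]
    constructor
    · rintro ⟨x, rfl⟩
      exact ⟨b (g.symm x), ⟨_, rfl⟩, rfl⟩
    · rintro ⟨z, ⟨x, rfl⟩, rfl⟩
      exact ⟨g x, cj_apply' g b x⟩
  rw [h1]
  exact LinearEquiv.finrank_map_eq g.toLinearEquiv _

theorem Mn.conj (H : HP G P) {f : E →L[ℝ] E} (hf : Mn P f) {g : E ≃ₗᵢ[ℝ] E} (hg : g ∈ G) :
    Mn P (cj g f) := by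
  refine ⟨H.conj g hg _ _ hf.mem, by rw [← cj_mul, hf.idem], ?_, ?_⟩
  · intro h
    apply hf.ne
    rw [← cj_inv g f, h]
    ext x
    show g.symm ((0 : E →L[ℝ] E) (g x)) = 0
    simp
  · intro b b' hb hb0
    rw [rk_cj]
    exact hf.le b b' hb hb0

theorem Mn.inj (H : HP G P) {f : E →L[ℝ] E} (hf : Mn P f) {b b' : E →L[ℝ] E} (hb : (b, b') ∈ P)
    (hbf : b * f ≠ 0) {x : E} (hx : f x = x) (hbx : b x = 0) : x = 0 := by
  by_contra hx0
  have hP : (b * f, f * b') ∈ P := H.mul _ _ _ _ hb hf.mem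
  have h1 := hf.le _ _ hP hbf
  have := H.fin _ _ hf.mem
  have hmap : LinearMap.range ((b * f : E →L[ℝ] E) : E →ₗ[ℝ] E) =
      (LinearMap.range (f : E →ₗ[ℝ] E)).map (b : E →ₗ[ℝ] E) := by
    rw [← LinearMap.range_comp]; rfl
  unfold rk at h1
  rw [hmap] at h1
  have := finrank_map_lt (M := LinearMap.range (f : E →ₗ[ℝ] E)) (b : E →ₗ[ℝ] E) ⟨x, hx⟩ hx0 hbx
  omega

theorem eig (H : HP G P) {d : E →L[ℝ] E} (hd : (d, d) ∈ P) (M : Submodule ℝ E)
    (hfin : FiniteDimensional ℝ M) {h : E} (hM : h ∈ M) (h0 : h ≠ 0) (hdM : ∀ x ∈ M, d x ∈ M) :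
    ∃ (t : ℝ) (v : E), v ∈ M ∧ v ≠ 0 ∧ d v = t • v := by
  obtain ⟨X, hX, -, -, -, B, hs, hpos, hadj⟩ := H.form _ _ hd M hfin
  have : Nontrivial M := ⟨⟨⟨h, hM⟩, 0, fun e => h0 (congrArg Subtype.val e)⟩⟩
  obtain ⟨t, v, hv, hdv⟩ := exists_eig (W := M)
    (((B.comp M.subtype).flip.comp M.subtype).flip) (fun x y => hs x (hX x.2) y (hX y.2))
    (fun x hx => hpos x (hX x.2) (fun e => hx (Subtype.ext e)))
    ((d : E →ₗ[ℝ] E).restrict hdM) (fun x y => hadj x (hX x.2) y (hX y.2))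
  refine ⟨t, v, v.2, fun e => hv (Subtype.ext e), ?_⟩
  exact congrArg Subtype.val hdv

theorem exists_mn (H : HP G P) (hne : ∃ a a', (a, a') ∈ P ∧ a ≠ 0) : ∃ f, Mn P f := by
  classical
  -- an element of minimal rank
  obtain ⟨a, a', ha, ha0, hmin⟩ : ∃ a a', (a, a') ∈ P ∧ a ≠ 0 ∧
      ∀ b b', (b, b') ∈ P → b ≠ 0 → rk a ≤ rk b := by
    have hex : ∃ n, ∃ a a', (a, a') ∈ P ∧ a ≠ 0 ∧ rk a = n := by
      obtain ⟨a, a', h1, h2⟩ := hne
      exact ⟨_, a, a', h1, h2, rfl⟩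
    obtain ⟨a, a', h1, h2, h3⟩ := Nat.find_spec hex
    refine ⟨a, a', h1, h2, fun b b' hb hb0 => ?_⟩
    rw [h3]
    exact Nat.find_min' hex ⟨b, b', hb, hb0, rfl⟩
  set c : E →L[ℝ] E := a' * a with hc
  have hcP : (c, c) ∈ P := H.mul _ _ _ _ (H.swap _ _ ha) ha
  have hc0 : c ≠ 0 := by
    intro h
    apply ha0
    ext x
    exact H.ker_eq ha (x := x) (by
      have : c x = 0 := by rw [h]; rfl
      exact this)
  have hfa := H.fin _ _ ha
  have hfc := H.fin _ _ hcP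
  have hrk : rk c ≤ rk a := by
    unfold rk
    have : LinearMap.range (c : E →ₗ[ℝ] E) =
        (LinearMap.range (a : E →ₗ[ℝ] E)).map (a' : E →ₗ[ℝ] E) := by
      rw [← LinearMap.range_comp]; rfl
    rw [this]
    exact Submodule.finrank_map_le _ _
  -- a nonzero eigenvalue
  obtain ⟨x₀, hx₀⟩ : ∃ x, c x ≠ 0 := by
    by_contra hcon
    push Not at hcon
    exact hc0 (by ext x; exact hcon x)
  obtain ⟨t, v, ⟨u, hu⟩, hv0, hcv⟩ := H.eig hcP (LinearMap.range (c : E →ₗ[ℝ] E)) hfc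
    (h := c x₀) ⟨x₀, rfl⟩ hx₀ (fun x _ => ⟨x, rfl⟩)
  have ht : t ≠ 0 := by
    rintro rfl
    rw [zero_smul] at hcv
    apply hv0
    have hu' : c u = v := hu
    rw [← hu'] at hcv ⊢
    exact H.ker_eq hcP hcv
  have hb : c * c = t • c := by
    have hP : (c * c - t • c, c * c - t • c) ∈ P :=
      P.sub_mem (H.mul _ _ _ _ hcP hcP) (P.smul_mem t hcP)
    by_contra hne'
    have h1 := hmin _ _ hP (sub_ne_zero.2 hne')
    have hmap : LinearMap.range ((c * c - t • c : E →L[ℝ] E) : E →ₗ[ℝ] E) ≤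
        (LinearMap.range (c : E →ₗ[ℝ] E)).map ((c - t • (1 : E →L[ℝ] E) : E →L[ℝ] E) : E →ₗ[ℝ] E) := by
      rintro _ ⟨x, rfl⟩
      refine ⟨c x, ⟨x, rfl⟩, ?_⟩
      show (c - t • (1 : E →L[ℝ] E)) (c x) = (c * c - t • c) x
      simp
    have h2 := finrank_map_lt (M := LinearMap.range (c : E →ₗ[ℝ] E))
      ((c - t • (1 : E →L[ℝ] E) : E →L[ℝ] E) : E →ₗ[ℝ] E) (x := v) ⟨u, hu⟩ hv0 (by
        show (c - t • (1 : E →L[ℝ] E)) v = 0
        simp [hcv])
    have h3 := Submodule.finrank_mono hmap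
    unfold rk at h1 hrk
    omega
  refine ⟨t⁻¹ • c, P.smul_mem t⁻¹ hcP, ?_, ?_, ?_⟩
  · rw [smul_mul_smul_comm, hb, smul_smul]
    congr 1
    field_simp
  · intro h
    apply hc0
    have := congrArg (fun z => t • z) h
    simpa [smul_smul, ht] using this
  · intro b b' hb' hb0
    refine le_trans ?_ (hmin b b' hb' hb0)
    refine le_trans ?_ hrk
    unfold rk
    refine Submodule.finrank_mono ?_
    rintro _ ⟨x, rfl⟩
    refine ⟨t⁻¹ • x, ?_⟩
    show c (t⁻¹ • x) = (t⁻¹ • c) x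
    simp

/-- self-adjoint elements of `f A f` are scalar -/
theorem Mn.scal (H : HP G P) {f : E →L[ℝ] E} (hf : Mn P f) {d : E →L[ℝ] E} (hd : (d, d) ∈ P)
    (hfd : f * d = d) (hdf : d * f = d) : ∃ t : ℝ, d = t • f := by
  obtain ⟨x₀, hx₀⟩ : ∃ x, f x ≠ 0 := by
    by_contra hcon
    push Not at hcon
    exact hf.ne (by ext x; exact hcon x)
  have hmem : ∀ x, f (d x) = d x := fun x => congrArg (fun z : E →L[ℝ] E => z x) hfd
  obtain ⟨t, v, ⟨u, hu⟩, hv0, hdv⟩ := H.eig hd (LinearMap.range (f : E →ₗ[ℝ] E)) (H.fin _ _ hf.mem)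
    (h := f x₀) ⟨x₀, rfl⟩ hx₀ (fun x _ => ⟨d x, hmem x⟩)
  refine ⟨t, ?_⟩
  have hfv : f v = v := by
    have hu' : f u = v := hu
    rw [← hu']
    exact congrArg (fun z : E →L[ℝ] E => z u) hf.idem
  have hP : (d - t • f, d - t • f) ∈ P := P.sub_mem hd (P.smul_mem t hf.mem)
  by_contra hne
  refine hv0 (hf.inj H hP ?_ hfv ?_)
  · rw [sub_mul, smul_mul_assoc, hdf, hf.idem]
    exact sub_ne_zero.2 hne
  · simp [hdv, hfv]

/-- the number `t` with `f a' a f = t f` -/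
theorem Mn.lam (H : HP G P) {f : E →L[ℝ] E} (hf : Mn P f) {a a' : E →L[ℝ] E} (ha : (a, a') ∈ P) :
    ∃ t : ℝ, f * a' * a * f = t • f ∧ 0 ≤ t ∧ (a * f ≠ 0 → 0 < t) := by
  have hP : (a * f, f * a') ∈ P := H.mul _ _ _ _ ha hf.mem
  have hd : (f * a' * (a * f), f * a' * (a * f)) ∈ P := H.mul _ _ _ _ (H.swap _ _ hP) hP
  obtain ⟨t, ht⟩ := hf.scal H hd (by rw [← mul_assoc, ← mul_assoc f f a', hf.idem])
    (by rw [mul_assoc, mul_assoc a f f, hf.idem])
  obtain ⟨x₀, hx₀⟩ : ∃ x, f x ≠ 0 := by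
    by_contra hcon
    push Not at hcon
    exact hf.ne (by ext x; exact hcon x)
  set h := f x₀ with hh
  have hfh : f h = h := congrArg (fun z : E →L[ℝ] E => z x₀) hf.idem
  obtain ⟨X, hX, -, haX, -, B, hs, hpos, hadj⟩ := H.form _ _ hP (ℝ ∙ h) inferInstance
  have hhX : h ∈ X := hX (Submodule.mem_span_singleton_self h)
  have h1 : B ((a * f) h) ((a * f) h) = t * B h h := by
    rw [hadj h hhX _ (haX h hhX)]
    have h2 : (f * a') ((a * f) h) = t • f h := by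
      have := congrArg (fun z : E →L[ℝ] E => z h) ht
      exact this
    rw [h2, hfh, map_smul, smul_eq_mul]
  have h3 : 0 < B h h := hpos h hhX hx₀
  have h4 : 0 ≤ B ((a * f) h) ((a * f) h) := by
    by_cases h0 : (a * f) h = 0
    · rw [h0]; simp
    · exact (hpos _ (haX h hhX) h0).le
  refine ⟨t, by rw [← ht, mul_assoc (f * a')], ?_, fun haf => ?_⟩
  · by_contra hneg
    push Not at hneg
    nlinarith
  · have h5 : (a * f) h ≠ 0 := by
      intro h0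
      have h6 : a h = 0 := by
        have : (a * f) h = a (f h) := rfl
        rw [this, hfh] at h0
        exact h0
      exact hx₀ (hf.inj H ha haf hfh h6)
    have h6 := hpos _ (haX h hhX) h5
    by_contra hneg
    push Not at hneg
    nlinarith

end HP

end Pool.Agent.J6H26.FR
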