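import Pool.Agent.J6H26.FR.One

/-! # The norm is given by the involution -/

namespace Pool.Agent.J6H26.FR

open Module

variable {E : Type*} [NormedAddCommGroup E] [NormedSpace ℝ E]

namespace HP

variable {G : Subgroup (E ≃ₗᵢ[ℝ] E)} {P : Submodule ℝ ((E →L[ℝ] E) × (E →L[ℝ] E))}

theorem Mn.sm {e : E →L[ℝ] E} (he : Mn P e) {s t : ℝ} (h : s • e = t • e) : s = t :=
  smul_left_injective ℝ he.ne h

/-- the pair is determined on the range of `e` by the image of one vector -/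
theorem Mn.uniq (H : HP G P) {e : E →L[ℝ] E} (he : Mn P e) {h : E} (eh : e h = h) (h0 : h ≠ 0)
    {a a' b b' : E →L[ℝ] E} (ha : (a, a') ∈ P) (hb : (b, b') ∈ P) (hab : a h = b h) :
    a * e = b * e ∧ e * a' = e * b' := by
  have hP : (a - b, a' - b') ∈ P := P.sub_mem ha hb
  have h1 : (a - b) * e = 0 := by
    by_contra hne
    exact h0 (he.inj H hP hne eh (by simp [hab]))
  have h2 : ((a - b) * e, e * (a' - b')) ∈ P := H.mul _ _ _ _ hP he.mem
  rw [h1] at h2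
  have h3 := H.adj_zero h2
  refine ⟨?_, ?_⟩
  · rw [sub_mul] at h1; exact sub_eq_zero.1 h1
  · rw [mul_sub] at h3; exact sub_eq_zero.1 h3

/-- multiplicativity -/
theorem Mn.mult (H : HP G P) {e : E →L[ℝ] E} (he : Mn P e) {h : E} (eh : e h = h) (h0 : h ≠ 0)
    {a a' b b' : E →L[ℝ] E} {s t : ℝ} {g : E ≃ₗᵢ[ℝ] E} (hg : g ∈ G) (hb : (b, b') ∈ P)
    (hs : e * b' * b * e = s • e) (ha : (a, a') ∈ P) (hah : a h = g h)
    (ht : e * a' * a * e = t • e) :
    ∃ c c', (c, c') ∈ P ∧ c h = g (b h) ∧ e * c' * c * e = (s * t) • e := by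
  have hMf : Mn P (cj g e) := he.conj H hg
  set f := cj g e with hf
  have hfh : f (g h) = g h := by rw [hf, cj_apply', eh]
  obtain ⟨u1, u2⟩ := he.uniq H eh h0 (H.mul _ _ _ _ hMf.mem ha) ha (by
    show f (a h) = a h
    rw [hah, hfh])
  refine ⟨cj g b * a, a' * cj g b', H.mul _ _ _ _ (H.conj g hg _ _ hb) ha, ?_, ?_⟩
  · show cj g b (a h) = _
    rw [hah, cj_apply']
  · have e1 : e * (a' * cj g b') * (cj g b * a) * e =
        (e * a') * (cj g b' * cj g b) * (a * e) := by simp only [mul_assoc]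
    have e2 : (e * (a' * f)) * (cj g b' * cj g b) * (f * a * e) =
        (e * a') * (f * cj g b' * cj g b * f) * (a * e) := by simp only [mul_assoc]
    have e3 : f * cj g b' * cj g b * f = s • f := by
      rw [hf, ← cj_mul, ← cj_mul, ← cj_mul, hs, cj_smul]
    have e4 : (e * a') * f * (a * e) = e * a' * a * e := by
      rw [mul_assoc (e * a'), ← mul_assoc f a e, u1]; simp only [mul_assoc]
    rw [e1, ← u1, ← u2, e2, e3, mul_smul_comm, smul_mul_assoc, e4, ht, smul_smul]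

/-- a lower bound -/
theorem Mn.lb (H : HP G P) {e : E →L[ℝ] E} (he : Mn P e) {h : E} (eh : e h = h) (hh : ‖h‖ = 1) :
    ∃ C : ℝ, 0 ≤ C ∧ ∀ b b' (s : ℝ), (b, b') ∈ P → e * b' * b * e = s • e →
      1 - C * ‖b h - h‖ ≤ s := by
  have h0 : h ≠ 0 := by rintro rfl; simp at hh
  obtain ⟨C0, hC0, hbd⟩ := he.bdd H eh h0
  refine ⟨(1 + C0) * ‖e‖, by positivity, fun b b' s hb hs => ?_⟩
  have hee : (e, e) ∈ DD P e := ⟨he.mem, he.idem, he.idem, he.idem, he.idem⟩
  set η := e * b * e - e with hη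
  set η' := e * b' * e - e with hη'
  have hp : (η, η') ∈ DD P e := (DD P e).sub_mem (he.dd H hb) hee
  obtain ⟨n1, n2⟩ := hbd _ hp
  simp only at n1 n2
  set c := b * e - e * b * e with hc
  set c' := e * b' - e * b' * e with hc'
  have hcP : (c, c') ∈ P := by
    have e1 : (b * e, e * b') ∈ P := H.mul _ _ _ _ hb he.mem
    have e2 : (e * b * e, e * b' * e) ∈ P := (he.dd H hb).1
    exact P.sub_mem e1 e2
  obtain ⟨t1, ht1, ht1p, -⟩ := he.lam H hcP
  obtain ⟨t2, ht2, ht2p, -⟩ := he.lam H hp.1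
  have hid : ∀ x : E →L[ℝ] E, e * (e * x) = e * x := fun x => by rw [← mul_assoc, he.idem]
  have k1 : e * c' * c * e = e * b' * b * e - e * b' * e * b * e := by
    rw [hc, hc']
    simp only [mul_sub, sub_mul, mul_assoc, he.idem, hid]
    abel
  have k2 : e * η' * η * e = e * b' * e * b * e - e * b' * e - e * b * e + e := by
    rw [hη, hη']
    simp only [mul_sub, sub_mul, mul_assoc, he.idem, hid]
    abel
  have k3 : η + η' = (s - 1 - t1 - t2) • e := by
    have : η + η' = s • e - e - t1 • e - t2 • e := by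
      rw [← hs, ← ht1, ← ht2, k1, k2, hη, hη']
      abel
    rw [this]
    module
  have k4 : (s - 1 - t1 - t2) • h = η h + η' h := by
    have := congrArg (fun z : E →L[ℝ] E => z h) k3
    simp only [_root_.add_apply, _root_.smul_apply, eh] at this
    exact this.symm
  have k5 : |s - 1 - t1 - t2| ≤ ‖η h‖ + ‖η' h‖ := by
    have := norm_add_le (η h) (η' h)
    rwa [← k4, norm_smul, hh, mul_one, Real.norm_eq_abs] at this
  have k6 : ‖η' h‖ ≤ C0 * ‖η h‖ := by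
    have := η'.le_opNorm h
    rw [hh, mul_one] at this
    exact this.trans n2
  have k7 : ‖η h‖ ≤ ‖e‖ * ‖b h - h‖ := by
    have : η h = e (b h - h) := by
      rw [hη, map_sub, eh]
      show e (b (e h)) - e h = _
      rw [eh]
    rw [this]
    exact e.le_opNorm _
  have k8 := neg_abs_le (s - 1 - t1 - t2)
  have k9 : (1 + C0) * ‖η h‖ ≤ (1 + C0) * (‖e‖ * ‖b h - h‖) := by gcongr
  nlinarith

/-- `g` has value `t` -/
def val (P : Submodule ℝ ((E →L[ℝ] E) × (E →L[ℝ] E))) (e : E →L[ℝ] E) (h : E) (g : E ≃ₗᵢ[ℝ] E)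
    (t : ℝ) : Prop :=
  ∃ a a', (a, a') ∈ P ∧ a h = g h ∧ e * a' * a * e = t • e

/-- all values are equal to one -/
theorem Mn.val_one (H : HP G P) (hG : AT G) (hE : ¬ FiniteDimensional ℝ E) {e : E →L[ℝ] E}
    (he : Mn P e) {h : E} (eh : e h = h) (hh : ‖h‖ = 1) :
    ∀ g ∈ G, val P e h g 1 := by
  have h0 : h ≠ 0 := by rintro rfl; simp at hh
  have hex : ∀ g ∈ G, ∃ t, val P e h g t := by
    intro g hg
    obtain ⟨a, a', ha, hah⟩ := he.cyc H hG hE eh hh g hg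
    obtain ⟨t, ht, -, -⟩ := he.lam H ha
    exact ⟨t, a, a', ha, hah, ht⟩
  have huq : ∀ g s t, val P e h g s → val P e h g t → s = t := by
    rintro g s t ⟨a, a', ha, hah, hs⟩ ⟨b, b', hb, hbh, ht⟩
    obtain ⟨u1, u2⟩ := he.uniq H eh h0 ha hb (by rw [hah, hbh])
    apply he.sm
    rw [← hs, ← ht, mul_assoc, u1, u2, mul_assoc (e * b')]
  have hmul : ∀ g k s t, k ∈ G → val P e h g s → val P e h k t → val P e h (k * g) (s * t) := by
    rintro g k s t hk ⟨b, b', hb, hbh, hs⟩ ⟨a, a', ha, hah, ht⟩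
    obtain ⟨c, c', hc, hch, hst⟩ := he.mult H eh h0 hk hb hs ha hah ht
    exact ⟨c, c', hc, by rw [hch, hbh]; rfl, hst⟩
  have hone : val P e h 1 1 := ⟨e, e, he.mem, eh, by rw [he.idem, he.idem, he.idem, one_smul]⟩
  obtain ⟨C, hC, hlb⟩ := he.lb H eh hh
  have hsmall : ∀ g t, ‖g h - h‖ < (2 * (C + 1))⁻¹ → val P e h g t → 1 / 2 ≤ t := by
    rintro g t hg ⟨a, a', ha, hah, ht⟩
    have h1 := hlb a a' t ha ht
    rw [hah] at h1
    have h2 : C * ‖g h - h‖ ≤ C * (2 * (C + 1))⁻¹ := by gcongr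
    have h3 : C * (2 * (C + 1))⁻¹ ≤ 1 / 2 := by
      rw [← div_eq_mul_inv, div_le_iff₀ (by positivity)]
      linarith
    linarith
  obtain ⟨L, hL⟩ := exists_prod hE hG hh (by positivity : 0 < (2 * (C + 1))⁻¹)
  have hbdd : ∀ g ∈ G, ∀ t, val P e h g t → (1 / 2 : ℝ) ^ L ≤ t := by
    intro g hg t ht
    obtain ⟨l, hl, hl2, rfl⟩ := hL g hg
    have key : ∀ l : List (E ≃ₗᵢ[ℝ] E), (∀ k ∈ l, k ∈ G ∧ ‖k h - h‖ < (2 * (C + 1))⁻¹) →
        ∃ s, val P e h l.prod s ∧ (1 / 2 : ℝ) ^ l.length ≤ s := by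
      intro l
      induction l with
      | nil => intro _; exact ⟨1, by simpa using hone, by simp⟩
      | cons k l ih =>
        intro hl
        obtain ⟨s, hs, hs2⟩ := ih (fun k hk => hl k (by simp [hk]))
        obtain ⟨hk, hkh⟩ := hl k (by simp)
        obtain ⟨t, ht⟩ := hex k hk
        refine ⟨s * t, by rw [List.prod_cons]; exact hmul _ _ _ _ hk hs ht, ?_⟩
        have h1 := hsmall k t hkh ht
        have h2 : (0 : ℝ) ≤ s := le_trans (by positivity) hs2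
        rw [List.length_cons, pow_succ]
        gcongr
    obtain ⟨s, hs, hs2⟩ := key l hl2
    rw [huq _ _ _ ht hs]
    refine le_trans ?_ hs2
    exact pow_le_pow_of_le_one (by norm_num) (by norm_num) hl
  have hpos : (0 : ℝ) < (1 / 2) ^ L := by positivity
  have hge : ∀ g ∈ G, ∀ t, val P e h g t → 1 ≤ t := by
    intro g hg t ht
    by_contra hlt
    push Not at hlt
    have ht0 : 0 ≤ t := hpos.le.trans (hbdd g hg t ht)
    have hpw : ∀ n : ℕ, val P e h (g ^ n) (t ^ n) := by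
      intro n
      induction n with
      | zero => simpa using hone
      | succ n ih =>
        rw [pow_succ t, pow_succ' g]
        exact hmul _ _ _ _ hg ih ht
    obtain ⟨n, hn⟩ := exists_pow_lt_of_lt_one hpos hlt
    have := hbdd _ (G.pow_mem hg n) _ (hpw n)
    linarith
  intro g hg
  obtain ⟨t, ht⟩ := hex g hg
  obtain ⟨s, hs⟩ := hex g⁻¹ (G.inv_mem hg)
  have h1 := hmul _ _ _ _ hg hs ht
  rw [mul_inv_cancel] at h1
  have h2 := huq _ _ _ h1 hone
  have h3 := hge _ hg _ ht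
  have h4 := hge _ (G.inv_mem hg) _ hs
  have h5 : t = 1 := by nlinarith
  rwa [h5] at ht

/-- the value is the square of the norm: the case of unit vectors -/
theorem Mn.unit (H : HP G P) (hG : AT G) (hE : ¬ FiniteDimensional ℝ E) {e : E →L[ℝ] E}
    (he : Mn P e) {h : E} (eh : e h = h) (hh : ‖h‖ = 1) {a a' : E →L[ℝ] E} {t : ℝ}
    (ha : (a, a') ∈ P) (hu : ‖a h‖ = 1) (ht : e * a' * a * e = t • e) : t = 1 := by
  have h0 : h ≠ 0 := by rintro rfl; simp at hh
  have hval := he.val_one H hG hE eh hh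
  apply le_antisymm
  · -- `t ≤ 1`
    obtain ⟨C0, hC0, hbd⟩ := he.bdd H eh h0
    apply le_of_forall_pos_le_add
    intro ε hε
    obtain ⟨g, hg, hgv⟩ := hG h (a h) hh hu (ε / ((1 + C0) * (‖e‖ * ‖a'‖) + 1)) (by positivity)
    obtain ⟨c, c', hc, hch, hcc⟩ := hval g hg
    rw [one_smul] at hcc
    set b := c - a with hb
    set b' := c' - a' with hb'
    have hbP : (b, b') ∈ P := P.sub_mem hc ha
    have hp := he.dd H (H.mul _ _ _ _ (H.swap _ _ ha) hbP)
    obtain ⟨n1, n2⟩ := hbd _ hp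
    set η := e * (a' * b) * e with hη
    set η' := e * (b' * a) * e with hη'
    simp only at n1 n2
    obtain ⟨ρ, hρ, hρ0, -⟩ := he.lam H hbP
    have k1 : η + η' = (1 - t - ρ) • e := by
      have : η + η' = e * c' * c * e - e * a' * a * e - e * b' * b * e := by
        rw [hη, hη', hb, hb']
        simp only [mul_sub, sub_mul, mul_assoc]
        abel
      rw [ht, hρ, hcc] at this
      rw [this]
      module
    have k4 : (1 - t - ρ) • h = η h + η' h := by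
      have := congrArg (fun z : E →L[ℝ] E => z h) k1
      simp only [_root_.add_apply, _root_.smul_apply, eh] at this
      exact this.symm
    have k5 : |1 - t - ρ| ≤ ‖η h‖ + ‖η' h‖ := by
      have := norm_add_le (η h) (η' h)
      rwa [← k4, norm_smul, hh, mul_one, Real.norm_eq_abs] at this
    have k6 : ‖η' h‖ ≤ C0 * ‖η h‖ := by
      have := η'.le_opNorm h
      rw [hh, mul_one] at this
      exact this.trans n2
    have k7 : ‖η h‖ ≤ ‖e‖ * ‖a'‖ * ‖g h - a h‖ := by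
      have : η h = e (a' (g h - a h)) := by
        rw [hη]
        show e (a' (b (e h))) = _
        rw [eh, hb]
        show e (a' (c h - a h)) = _
        rw [hch]
      rw [this, mul_assoc]
      refine (e.le_opNorm _).trans ?_
      gcongr
      exact a'.le_opNorm _
    have k8 := neg_abs_le (1 - t - ρ)
    have k9 : (1 + C0) * ‖η h‖ ≤ (1 + C0) * (‖e‖ * ‖a'‖ * ‖g h - a h‖) := by gcongr
    have k10 : ((1 + C0) * (‖e‖ * ‖a'‖) + 1) * ‖g h - a h‖ < ε := by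
      rw [lt_div_iff₀ (by positivity)] at hgv
      linarith
    have k11 := norm_nonneg (g h - a h)
    nlinarith
  · -- `1 ≤ t`
    obtain ⟨C, hC, hlb⟩ := he.lb H eh hh
    apply le_of_forall_pos_le_add
    intro ε hε
    obtain ⟨g, hg, hgv⟩ := hG h (a h) hh hu (ε / (C + 1)) (by positivity)
    obtain ⟨c, c', hc, hch, hcc⟩ := hval g⁻¹ (G.inv_mem hg)
    obtain ⟨b, b', hb, hbh, hbb⟩ := he.mult H eh h0 (G.inv_mem hg) ha ht hc hch hcc
    rw [mul_one] at hbb
    have h1 := hlb b b' t hb hbb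
    have h2 : ‖b h - h‖ = ‖g h - a h‖ := by
      rw [← g.norm_map (b h - h), map_sub, hbh]
      have : g (g⁻¹ (a h)) = a h := g.apply_symm_apply _
      rw [this, norm_sub_rev]
    rw [h2] at h1
    rw [lt_div_iff₀ (by positivity)] at hgv
    have h3 := norm_nonneg (g h - a h)
    nlinarith

/-- the value is the square of the norm -/
theorem Mn.nsq (H : HP G P) (hG : AT G) (hE : ¬ FiniteDimensional ℝ E) {e : E →L[ℝ] E}
    (he : Mn P e) {h : E} (eh : e h = h) (hh : ‖h‖ = 1) {a a' : E →L[ℝ] E}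
    (ha : (a, a') ∈ P) : e * a' * a * e = (‖a h‖ ^ 2) • e := by
  have h0 : h ≠ 0 := by rintro rfl; simp at hh
  by_cases hz : a h = 0
  · have hae : a * e = 0 := by
      by_contra hne
      exact h0 (he.inj H ha hne eh hz)
    rw [mul_assoc, hae, hz]
    simp
  have hn : ‖a h‖ ≠ 0 := norm_ne_zero_iff.2 hz
  have hb : (‖a h‖⁻¹ • a, ‖a h‖⁻¹ • a') ∈ P := P.smul_mem (‖a h‖⁻¹) ha
  obtain ⟨t, ht, -, -⟩ := he.lam H hb
  have h1 := he.unit H hG hE eh hh hb (by
    rw [_root_.smul_apply, norm_smul, norm_inv, norm_norm, inv_mul_cancel₀ hn]) ht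
  rw [h1, one_smul] at ht
  have h2 : e * (‖a h‖⁻¹ • a') * (‖a h‖⁻¹ • a) * e = (‖a h‖⁻¹ ^ 2) • (e * a' * a * e) := by
    simp only [mul_smul_comm, smul_mul_assoc, smul_smul]
    congr 1
    ring
  rw [h2] at ht
  have h3 : (‖a h‖ ^ 2) • (‖a h‖⁻¹ ^ 2) • (e * a' * a * e) = e * a' * a * e := by
    rw [smul_smul, ← mul_pow, mul_inv_cancel₀ hn, one_pow, one_smul]
  rw [← h3, ht]

/-- the vectors `a h`, with `a` in the algebra -/
def orb (P : Submodule ℝ ((E →L[ℝ] E) × (E →L[ℝ] E))) (h : E) : Submodule ℝ E := P.map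
    ({ toFun := fun p => p.1 h, map_add' := fun p q => rfl, map_smul' := fun t p => rfl } :
      ((E →L[ℝ] E) × (E →L[ℝ] E)) →ₗ[ℝ] E)

theorem exists_orb (H : HP G P) (hG : AT G) (hE : ¬ FiniteDimensional ℝ E)
    (hne : ∃ a a', (a, a') ∈ P ∧ a ≠ 0) :
    ∃ (e : E →L[ℝ] E) (h : E), Mn P e ∧ e h = h ∧ ‖h‖ = 1 ∧ Dense (orb P h : Set E) := by
  obtain ⟨e, he⟩ := H.exists_mn hne
  obtain ⟨x₀, hx₀⟩ : ∃ x, e x ≠ 0 := by
    by_contra hcon
    push Not at hcon
    exact he.ne (by ext x; exact hcon x)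
  have hxn : ‖e x₀‖ ≠ 0 := norm_ne_zero_iff.2 hx₀
  set h : E := ‖e x₀‖⁻¹ • e x₀ with hhd
  have hh : ‖h‖ = 1 := by rw [hhd, norm_smul, norm_inv, norm_norm, inv_mul_cancel₀ hxn]
  have eh : e h = h := by rw [hhd, map_smul, he.app]
  refine ⟨e, h, he, eh, hh, ?_⟩
  intro x
  by_cases hx : x = 0
  · rw [hx]; exact subset_closure (orb P h).zero_mem
  have hn : 0 < ‖x‖ := norm_pos_iff.2 hx
  rw [Metric.mem_closure_iff]
  intro ε hε
  obtain ⟨g, hg, hgx⟩ := hG h (‖x‖⁻¹ • x) hh (by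
    rw [norm_smul, norm_inv, norm_norm, inv_mul_cancel₀ hn.ne']) (ε / ‖x‖) (by positivity)
  obtain ⟨a, a', ha, hah⟩ := he.cyc H hG hE eh hh g hg
  refine ⟨‖x‖ • g h, (orb P h).smul_mem _ ⟨(a, a'), ha, hah⟩, ?_⟩
  rw [dist_eq_norm, norm_sub_rev]
  have e1 : ‖x‖ • g h - x = ‖x‖ • (g h - ‖x‖⁻¹ • x) := by
    rw [smul_sub, smul_smul, mul_inv_cancel₀ hn.ne', one_smul]
  rw [e1, norm_smul, norm_norm]
  rw [lt_div_iff₀ hn] at hgx
  linarith

/-- **The parallelogram law.** -/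
theorem para (H : HP G P) (hG : AT G) (hE : ¬ FiniteDimensional ℝ E)
    (hne : ∃ a a', (a, a') ∈ P ∧ a ≠ 0) (x y : E) :
    ‖x + y‖ ^ 2 + ‖x - y‖ ^ 2 = 2 * (‖x‖ ^ 2 + ‖y‖ ^ 2) := by
  obtain ⟨e, h, he, eh, hh, hdense⟩ := H.exists_orb hG hE hne
  have hpar : ∀ x ∈ orb P h, ∀ y ∈ orb P h,
      ‖x + y‖ ^ 2 + ‖x - y‖ ^ 2 = 2 * (‖x‖ ^ 2 + ‖y‖ ^ 2) := by
    rintro _ ⟨⟨a, a'⟩, ha, rfl⟩ _ ⟨⟨b, b'⟩, hb, rfl⟩
    show ‖a h + b h‖ ^ 2 + ‖a h - b h‖ ^ 2 = 2 * (‖a h‖ ^ 2 + ‖b h‖ ^ 2)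
    have ha : (a, a') ∈ P := ha
    have hb : (b, b') ∈ P := hb
    have e1 := he.nsq H hG hE eh hh ha
    have e2 := he.nsq H hG hE eh hh hb
    have e3 : e * (a' + b') * (a + b) * e = (‖a h + b h‖ ^ 2) • e :=
      he.nsq H hG hE eh hh (P.add_mem ha hb)
    have e4 : e * (a' - b') * (a - b) * e = (‖a h - b h‖ ^ 2) • e :=
      he.nsq H hG hE eh hh (P.sub_mem ha hb)
    apply he.sm
    rw [add_smul, mul_smul, add_smul, ← e1, ← e2, ← e3, ← e4, two_smul]
    simp only [mul_sub, sub_mul, mul_add, add_mul, mul_assoc]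
    abel
  have hcl : IsClosed {p : E × E | ‖p.1 + p.2‖ ^ 2 + ‖p.1 - p.2‖ ^ 2 =
      2 * (‖p.1‖ ^ 2 + ‖p.2‖ ^ 2)} := by
    refine isClosed_eq ?_ ?_ <;> fun_prop
  have hsub : closure ((orb P h : Set E) ×ˢ (orb P h : Set E)) ⊆
      {p : E × E | ‖p.1 + p.2‖ ^ 2 + ‖p.1 - p.2‖ ^ 2 = 2 * (‖p.1‖ ^ 2 + ‖p.2‖ ^ 2)} :=
    closure_minimal (fun p hp => hpar p.1 hp.1 p.2 hp.2) hcl
  have hxy : (x, y) ∈ closure ((orb P h : Set E) ×ˢ (orb P h : Set E)) := by
    rw [closure_prod_eq]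
    exact ⟨hdense x, hdense y⟩
  exact hsub hxy

/-- the unitary elements of the algebra (with a unit) are isometries -/
theorem iso (H : HP G P) (hG : AT G) (hE : ¬ FiniteDimensional ℝ E) {b b' : E →L[ℝ] E}
    (hb : (b, b') ∈ P) (hbb : (b' + 1) * (b + 1) = 1) (x : E) : ‖b x + x‖ = ‖x‖ := by
  by_cases hb0 : b = 0
  · rw [hb0]; simp
  obtain ⟨e, h, he, eh, hh, hdense⟩ := H.exists_orb hG hE ⟨b, b', hb, hb0⟩
  have hcl : IsClosed {x : E | ‖b x + x‖ = ‖x‖} := by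
    refine isClosed_eq ?_ ?_ <;> fun_prop
  have hsub : closure (orb P h : Set E) ⊆ {x : E | ‖b x + x‖ = ‖x‖} := by
    refine closure_minimal ?_ hcl
    rintro _ ⟨⟨a, a'⟩, ha, rfl⟩
    show ‖b (a h) + a h‖ = ‖a h‖
    have ha : (a, a') ∈ P := ha
    have hc : (b * a + a, a' * b' + a') ∈ P := P.add_mem (H.mul _ _ _ _ hb ha) ha
    have e1 := he.nsq H hG hE eh hh hc
    have e2 := he.nsq H hG hE eh hh ha
    have e3 : e * (a' * b' + a') * (b * a + a) * e = e * a' * a * e := by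
      have : (a' * b' + a') * (b * a + a) = a' * ((b' + 1) * (b + 1)) * a := by
        simp only [mul_add, add_mul, mul_assoc, mul_one, one_mul]
      rw [mul_assoc e, this, hbb, mul_one, ← mul_assoc]
    have e4 : ‖(b * a + a) h‖ ^ 2 = ‖a h‖ ^ 2 := by
      apply he.sm
      rw [← e1, e3, e2]
    exact (sq_eq_sq₀ (norm_nonneg _) (norm_nonneg _)).1 e4
  exact hsub (hdense x)

end HP

end Pool.Agent.J6H26.FR
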