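import Pool.Agent.J6H26.FR.Inv
import Pool.Agent.J6H26.FR.Val

/-! # The algebra of a locally bounded group of operators -/

namespace Pool.Agent.J6H26.FR

open Module

variable {E : Type*} [NormedAddCommGroup E] [NormedSpace ℝ E]

/-- the operator `S - 1` -/
noncomputable def dl (S : E ≃L[ℝ] E) : E →L[ℝ] E := (S : E →L[ℝ] E) - 1

lemma dl_apply (S : E ≃L[ℝ] E) (x : E) : dl S x = S x - x := rfl

/-- `S - 1` has finite rank -/
def FinR (S : E ≃L[ℝ] E) : Prop := FiniteDimensional ℝ (LinearMap.range (dl S : E →ₗ[ℝ] E))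

lemma range_dl_inv (S : E ≃L[ℝ] E) :
    LinearMap.range (dl S⁻¹ : E →ₗ[ℝ] E) ≤ LinearMap.range (dl S : E →ₗ[ℝ] E) := by
  rintro _ ⟨x, rfl⟩
  refine ⟨-(S⁻¹ x), ?_⟩
  show dl S (-(S⁻¹ x)) = dl S⁻¹ x
  rw [dl_apply, dl_apply, map_neg]
  have : S (S⁻¹ x) = x := S.apply_symm_apply x
  rw [this]; abel

lemma FinR.inv {S : E ≃L[ℝ] E} (h : FinR S) : FinR S⁻¹ := by
  have := h
  unfold FinR at this ⊢
  exact Submodule.finiteDimensional_of_le (range_dl_inv S)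

lemma range_dl_mul (S R : E ≃L[ℝ] E) :
    LinearMap.range (dl (S * R) : E →ₗ[ℝ] E) ≤
      LinearMap.range (dl S : E →ₗ[ℝ] E) ⊔ LinearMap.range (dl R : E →ₗ[ℝ] E) := by
  rintro _ ⟨x, rfl⟩
  have : (dl (S * R) : E →ₗ[ℝ] E) x = dl S (R x) + dl R x := by
    show dl (S * R) x = _
    rw [dl_apply, dl_apply, dl_apply]
    show S (R x) - x = _
    abel
  rw [this]
  exact Submodule.add_mem_sup ⟨_, rfl⟩ ⟨_, rfl⟩

lemma FinR.mul {S R : E ≃L[ℝ] E} (h : FinR S) (h' : FinR R) : FinR (S * R) := by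
  have h1 := h
  have h2 := h'
  unfold FinR at h1 h2 ⊢
  exact Submodule.finiteDimensional_of_le (range_dl_mul S R)

/-- the generators -/
def gens (N : Subgroup (E ≃L[ℝ] E)) : Set ((E →L[ℝ] E) × (E →L[ℝ] E)) :=
  {p | ∃ S ∈ N, FinR S ∧ p = (dl S, dl S⁻¹)}

/-- the algebra -/
def PN (N : Subgroup (E ≃L[ℝ] E)) : Submodule ℝ ((E →L[ℝ] E) × (E →L[ℝ] E)) :=
  Submodule.span ℝ (gens N)

/-- locally bounded groups -/
def LB (N : Subgroup (E ≃L[ℝ] E)) : Prop :=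
  ∀ F : Set (E ≃L[ℝ] E), F.Finite → F ⊆ N →
    ∃ C : ℝ, ∀ S ∈ Subgroup.closure F, ∀ x, ‖S x‖ ≤ C * ‖x‖

lemma finite_range {a b : E →L[ℝ] E} (ha : FiniteDimensional ℝ (LinearMap.range (a : E →ₗ[ℝ] E)))
    (hb : FiniteDimensional ℝ (LinearMap.range (b : E →ₗ[ℝ] E))) :
    FiniteDimensional ℝ (LinearMap.range ((a + b : E →L[ℝ] E) : E →ₗ[ℝ] E)) := by
  have : LinearMap.range ((a + b : E →L[ℝ] E) : E →ₗ[ℝ] E) ≤
      LinearMap.range (a : E →ₗ[ℝ] E) ⊔ LinearMap.range (b : E →ₗ[ℝ] E) := by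
    rintro _ ⟨x, rfl⟩
    exact Submodule.add_mem_sup ⟨x, rfl⟩ ⟨x, rfl⟩
  exact Submodule.finiteDimensional_of_le this

theorem PN_fin {N : Subgroup (E ≃L[ℝ] E)} {a a' : E →L[ℝ] E} (h : (a, a') ∈ PN N) :
    FiniteDimensional ℝ (LinearMap.range (a : E →ₗ[ℝ] E)) := by
  have key : ∀ p ∈ PN N, FiniteDimensional ℝ (LinearMap.range (p.1 : E →ₗ[ℝ] E)) := by
    intro p hp
    induction hp using Submodule.span_induction with
    | mem p hp =>
      obtain ⟨S, -, hS, rfl⟩ := hp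
      exact hS
    | zero =>
      have : LinearMap.range (((0 : (E →L[ℝ] E) × (E →L[ℝ] E)).1 : E →L[ℝ] E) : E →ₗ[ℝ] E) = ⊥ := by
        rw [eq_bot_iff]
        rintro _ ⟨x, rfl⟩
        exact rfl
      rw [this]; infer_instance
    | add p q _ _ hp hq => exact finite_range hp hq
    | smul t p _ hp =>
      have : LinearMap.range (((t • p).1 : E →L[ℝ] E) : E →ₗ[ℝ] E) ≤
          LinearMap.range (p.1 : E →ₗ[ℝ] E) := by
        rintro _ ⟨x, rfl⟩
        refine ⟨t • x, ?_⟩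
        show p.1 (t • x) = (t • p.1) x
        rw [map_smul]; rfl
      exact Submodule.finiteDimensional_of_le this
  exact key (a, a') h

theorem PN_swap {N : Subgroup (E ≃L[ℝ] E)} {a a' : E →L[ℝ] E} (h : (a, a') ∈ PN N) :
    (a', a) ∈ PN N := by
  have key : ∀ p ∈ PN N, (p.2, p.1) ∈ PN N := by
    intro p hp
    induction hp using Submodule.span_induction with
    | mem p hp =>
      obtain ⟨S, hS, hSf, rfl⟩ := hp
      refine Submodule.subset_span ⟨S⁻¹, N.inv_mem hS, hSf.inv, ?_⟩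
      rw [inv_inv]
    | zero => exact (PN N).zero_mem
    | add p q _ _ hp hq => exact (PN N).add_mem hp hq
    | smul t p _ hp => exact (PN N).smul_mem t hp
  exact key (a, a') h

lemma dl_mul (S R : E ≃L[ℝ] E) : dl S * dl R = dl (S * R) - dl S - dl R := by
  have : ((S * R : E ≃L[ℝ] E) : E →L[ℝ] E) = (S : E →L[ℝ] E) * (R : E →L[ℝ] E) := rfl
  unfold dl
  rw [this, sub_mul, mul_sub, mul_sub, one_mul, mul_one, mul_one]
  abel

theorem PN_mul {N : Subgroup (E ≃L[ℝ] E)} {a a' b b' : E →L[ℝ] E} (h : (a, a') ∈ PN N)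
    (h' : (b, b') ∈ PN N) : (a * b, b' * a') ∈ PN N := by
  have key : ∀ p ∈ PN N, ∀ q ∈ PN N, (p.1 * q.1, q.2 * p.2) ∈ PN N := by
    intro p hp q hq
    induction hp using Submodule.span_induction with
    | mem p hp =>
      obtain ⟨S, hS, hSf, rfl⟩ := hp
      induction hq using Submodule.span_induction with
      | mem q hq =>
        obtain ⟨R, hR, hRf, rfl⟩ := hq
        have g1 : (dl (S * R), dl (S * R)⁻¹) ∈ PN N :=
          Submodule.subset_span ⟨S * R, N.mul_mem hS hR, hSf.mul hRf, rfl⟩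
        have g2 : (dl S, dl S⁻¹) ∈ PN N := Submodule.subset_span ⟨S, hS, hSf, rfl⟩
        have g3 : (dl R, dl R⁻¹) ∈ PN N := Submodule.subset_span ⟨R, hR, hRf, rfl⟩
        have g4 := (PN N).sub_mem ((PN N).sub_mem g1 g2) g3
        convert g4 using 1
        show (dl S * dl R, dl R⁻¹ * dl S⁻¹) = _
        rw [dl_mul, dl_mul, mul_inv_rev]
        ext1
        · rfl
        · show _ - _ - _ = _ - _ - _
          abel
      | zero =>
        have := (PN N).zero_mem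
        convert this using 1
        show (_ * (0 : E →L[ℝ] E), (0 : E →L[ℝ] E) * _) = _
        rw [mul_zero, zero_mul]; rfl
      | add q r _ _ hq hr =>
        have := (PN N).add_mem hq hr
        convert this using 1
        show (_ * (q.1 + r.1), (q.2 + r.2) * _) = _
        rw [mul_add, add_mul]; rfl
      | smul t q _ hq =>
        have := (PN N).smul_mem t hq
        convert this using 1
        show (_ * (t • q.1), (t • q.2) * _) = _
        rw [mul_smul_comm, smul_mul_assoc]; rfl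
    | zero =>
      have := (PN N).zero_mem
      convert this using 1
      show ((0 : E →L[ℝ] E) * _, _ * (0 : E →L[ℝ] E)) = _
      rw [mul_zero, zero_mul]; rfl
    | add p r _ _ hp hr =>
      have := (PN N).add_mem hp hr
      convert this using 1
      show ((p.1 + r.1) * _, _ * (p.2 + r.2)) = _
      rw [mul_add, add_mul]; rfl
    | smul t p _ hp =>
      have := (PN N).smul_mem t hp
      convert this using 1
      show ((t • p.1) * _, _ * (t • p.2)) = _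
      rw [mul_smul_comm, smul_mul_assoc]; rfl
  exact key _ h _ h'

lemma cj_add (g : E ≃ₗᵢ[ℝ] E) (a b : E →L[ℝ] E) : cj g (a + b) = cj g a + cj g b := by
  ext x
  show g ((a + b) (g.symm x)) = g (a (g.symm x)) + g (b (g.symm x))
  rw [_root_.add_apply, g.map_add]

lemma cj_zero (g : E ≃ₗᵢ[ℝ] E) : cj g (0 : E →L[ℝ] E) = 0 := by
  ext x
  show g ((0 : E →L[ℝ] E) (g.symm x)) = 0
  simp

/-- conjugation in the group of operators -/
noncomputable def cg (g : E ≃ₗᵢ[ℝ] E) (S : E ≃L[ℝ] E) : E ≃L[ℝ] E :=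
  g.toContinuousLinearEquiv * S * g.toContinuousLinearEquiv⁻¹

lemma cg_apply (g : E ≃ₗᵢ[ℝ] E) (S : E ≃L[ℝ] E) (x : E) : cg g S x = g (S (g.symm x)) := rfl

lemma dl_cg (g : E ≃ₗᵢ[ℝ] E) (S : E ≃L[ℝ] E) : dl (cg g S) = cj g (dl S) := by
  ext x
  rw [dl_apply, cj_apply, dl_apply, map_sub, g.apply_symm_apply, cg_apply]

lemma cg_inv (g : E ≃ₗᵢ[ℝ] E) (S : E ≃L[ℝ] E) : (cg g S)⁻¹ = cg g S⁻¹ := by
  unfold cg
  group

lemma FinR.cg {S : E ≃L[ℝ] E} (h : FinR S) (g : E ≃ₗᵢ[ℝ] E) : FinR (cg g S) := by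
  unfold FinR at h ⊢
  rw [dl_cg]
  have h1 : LinearMap.range (cj g (dl S) : E →ₗ[ℝ] E) ≤
      (LinearMap.range (dl S : E →ₗ[ℝ] E)).map (g.toLinearEquiv : E →ₗ[ℝ] E) := by
    rintro _ ⟨x, rfl⟩
    exact ⟨dl S (g.symm x), ⟨_, rfl⟩, rfl⟩
  exact Submodule.finiteDimensional_of_le h1

theorem PN_conj {G : Subgroup (E ≃ₗᵢ[ℝ] E)} {N : Subgroup (E ≃L[ℝ] E)}
    (hN : ∀ g ∈ G, ∀ S ∈ N, cg g S ∈ N) {g : E ≃ₗᵢ[ℝ] E} (hg : g ∈ G) {a a' : E →L[ℝ] E}
    (h : (a, a') ∈ PN N) : (cj g a, cj g a') ∈ PN N := by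
  have key : ∀ p ∈ PN N, (cj g p.1, cj g p.2) ∈ PN N := by
    intro p hp
    induction hp using Submodule.span_induction with
    | mem p hp =>
      obtain ⟨S, hS, hSf, rfl⟩ := hp
      refine Submodule.subset_span ⟨cg g S, hN g hg S hS, hSf.cg g, ?_⟩
      rw [cg_inv, dl_cg, dl_cg]
    | zero =>
      have := (PN N).zero_mem
      convert this using 1
      show (cj g (0 : E →L[ℝ] E), cj g (0 : E →L[ℝ] E)) = _
      rw [cj_zero]; rfl
    | add p q _ _ hp hq =>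
      have := (PN N).add_mem hp hq
      convert this using 1
      show (cj g (p.1 + q.1), cj g (p.2 + q.2)) = _
      rw [cj_add, cj_add]; rfl
    | smul t p _ hp =>
      have := (PN N).smul_mem t hp
      convert this using 1
      show (cj g (t • p.1), cj g (t • p.2)) = _
      rw [cj_smul, cj_smul]; rfl
  exact key _ h

/-- the restriction to an invariant subspace -/
noncomputable def rs {X : Submodule ℝ E} (hX : FiniteDimensional ℝ X) (S : E ≃L[ℝ] E)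
    (h1 : ∀ x ∈ X, S x ∈ X) (h2 : ∀ x ∈ X, S⁻¹ x ∈ X) : X ≃L[ℝ] X :=
  LinearEquiv.toContinuousLinearEquiv
    { toFun := fun x => ⟨S x, h1 x x.2⟩
      invFun := fun x => ⟨S⁻¹ x, h2 x x.2⟩
      map_add' := fun x y => Subtype.ext (by simp)
      map_smul' := fun t x => Subtype.ext (by simp)
      left_inv := fun x => Subtype.ext (S.symm_apply_apply x)
      right_inv := fun x => Subtype.ext (S.apply_symm_apply x) }

lemma rs_apply {X : Submodule ℝ E} (hX : FiniteDimensional ℝ X) (S : E ≃L[ℝ] E)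
    (h1 : ∀ x ∈ X, S x ∈ X) (h2 : ∀ x ∈ X, S⁻¹ x ∈ X) (x : X) : ((rs hX S h1 h2 x : X) : E) = S x :=
  rfl

theorem PN_form {N : Subgroup (E ≃L[ℝ] E)} (hN : LB N) {a a' : E →L[ℝ] E} (h : (a, a') ∈ PN N)
    (X₀ : Submodule ℝ E) (hX₀ : FiniteDimensional ℝ X₀) :
    ∃ X : Submodule ℝ E, X₀ ≤ X ∧ FiniteDimensional ℝ X ∧ (∀ x ∈ X, a x ∈ X) ∧
      (∀ x ∈ X, a' x ∈ X) ∧ ∃ B : E →ₗ[ℝ] E →ₗ[ℝ] ℝ, (∀ x ∈ X, ∀ y ∈ X, B x y = B y x) ∧
        (∀ x ∈ X, x ≠ 0 → 0 < B x x) ∧ ∀ x ∈ X, ∀ y ∈ X, B (a x) y = B x (a' y) := by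
  classical
  obtain ⟨T, hT, haT⟩ := Submodule.mem_span_finite_of_mem_span h
  have hch : ∀ p : T, ∃ S ∈ N, FinR S ∧ (p : (E →L[ℝ] E) × (E →L[ℝ] E)) = (dl S, dl S⁻¹) :=
    fun p => hT p.2
  choose S hSN hSf hSp using hch
  set F : Set (E ≃L[ℝ] E) := Set.range S with hF
  have hFfin : F.Finite := Set.finite_range S
  obtain ⟨C, hC⟩ := hN F hFfin (by rintro _ ⟨p, rfl⟩; exact hSN p)
  set X : Submodule ℝ E := X₀ ⊔ ⨆ p : T, LinearMap.range (dl (S p) : E →ₗ[ℝ] E) with hXdef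
  have hfin : FiniteDimensional ℝ X := by
    have : ∀ p : T, FiniteDimensional ℝ (LinearMap.range (dl (S p) : E →ₗ[ℝ] E)) := hSf
    rw [hXdef]
    infer_instance
  have hd : ∀ (p : T) (x : E), dl (S p) x ∈ X := by
    intro p x
    refine Submodule.mem_sup_right ?_
    exact Submodule.mem_iSup_of_mem p ⟨x, rfl⟩
  have hd' : ∀ (p : T) (x : E), dl (S p)⁻¹ x ∈ X := by
    intro p x
    obtain ⟨y, hy⟩ := range_dl_inv (S p) ⟨x, rfl⟩
    have hy' : dl (S p) y = dl (S p)⁻¹ x := hy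
    rw [← hy']
    exact hd p y
  have hs : ∀ (p : T), ∀ x ∈ X, S p x ∈ X := by
    intro p x hx
    have : S p x = dl (S p) x + x := by rw [dl_apply]; abel
    rw [this]
    exact X.add_mem (hd p x) hx
  have hs' : ∀ (p : T), ∀ x ∈ X, (S p)⁻¹ x ∈ X := by
    intro p x hx
    have : (S p)⁻¹ x = dl (S p)⁻¹ x + x := by rw [dl_apply]; abel
    rw [this]
    exact X.add_mem (hd' p x) hx
  -- the group on `X`
  let Γ : Subgroup (X ≃L[ℝ] X) :=
    { carrier := {R | ∃ U ∈ Subgroup.closure F, ∀ x : X, ((R x : X) : E) = U x}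
      mul_mem' := by
        rintro R R' ⟨U, hU, h1⟩ ⟨U', hU', h2⟩
        refine ⟨U * U', Subgroup.mul_mem _ hU hU', fun x => ?_⟩
        show ((R (R' x) : X) : E) = U (U' x)
        rw [h1, h2]
      one_mem' := ⟨1, Subgroup.one_mem _, fun x => rfl⟩
      inv_mem' := by
        rintro R ⟨U, hU, h1⟩
        refine ⟨U⁻¹, Subgroup.inv_mem _ hU, fun x => ?_⟩
        have h2 := h1 (R⁻¹ x)
        have h3 : R (R⁻¹ x) = x := R.apply_symm_apply x
        rw [h3] at h2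
        rw [h2]
        exact (U.symm_apply_apply _).symm }
  obtain ⟨B₀, hsym, hpos, hinv⟩ := exists_inv (V := X) Γ C (by
    rintro R ⟨U, hU, h1⟩ x
    have := hC U hU x
    rw [← h1] at this
    exact this)
  have hSinv : ∀ (p : T) (x y : X), B₀ ⟨S p x, hs p x x.2⟩ ⟨S p y, hs p y y.2⟩ = B₀ x y := by
    intro p x y
    exact hinv (rs hfin (S p) (hs p) (hs' p))
      ⟨S p, Subgroup.subset_closure ⟨p, rfl⟩, fun x => rfl⟩ x y
  obtain ⟨π, hπ⟩ := LinearMap.exists_leftInverse_of_injective X.subtype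
    (Submodule.ker_subtype X)
  have hπx : ∀ x (hx : x ∈ X), π x = ⟨x, hx⟩ := by
    intro x hx
    exact congrArg (fun z : X →ₗ[ℝ] X => z ⟨x, hx⟩) hπ
  have hBB : ∀ (p : T), ∀ x ∈ X, ∀ y ∈ X,
      (B₀.compl₁₂ π π) (S p x) y = (B₀.compl₁₂ π π) x ((S p)⁻¹ y) := by
    intro p x hx y hy
    rw [LinearMap.compl₁₂_apply, LinearMap.compl₁₂_apply, hπx _ (hs p x hx), hπx _ hy, hπx _ hx,
      hπx _ (hs' p y hy)]
    rw [← hSinv p ⟨x, hx⟩ ⟨(S p)⁻¹ y, hs' p y hy⟩]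
    congr 1
    exact Subtype.ext ((S p).apply_symm_apply y).symm
  have hall : ∀ q ∈ Submodule.span ℝ (T : Set ((E →L[ℝ] E) × (E →L[ℝ] E))),
      (∀ x ∈ X, q.1 x ∈ X) ∧ (∀ x ∈ X, q.2 x ∈ X) ∧
      ∀ x ∈ X, ∀ y ∈ X, (B₀.compl₁₂ π π) (q.1 x) y = (B₀.compl₁₂ π π) x (q.2 y) := by
    intro q hq
    induction hq using Submodule.span_induction with
    | mem q hq =>
      obtain ⟨p, rfl⟩ : ∃ p : T, (p : (E →L[ℝ] E) × (E →L[ℝ] E)) = q := ⟨⟨q, hq⟩, rfl⟩
      rw [hSp p]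
      refine ⟨fun x _ => hd _ x, fun x _ => hd' _ x, fun x hx y hy => ?_⟩
      show (B₀.compl₁₂ π π) (dl (S p) x) y = (B₀.compl₁₂ π π) x (dl (S p)⁻¹ y)
      rw [dl_apply, dl_apply, map_sub, map_sub, LinearMap.sub_apply, hBB _ x hx y hy]
    | zero =>
      refine ⟨fun x _ => X.zero_mem, fun x _ => X.zero_mem, fun x hx y hy => ?_⟩
      show (B₀.compl₁₂ π π) (0 : E) y = (B₀.compl₁₂ π π) x (0 : E)
      rw [map_zero, map_zero]; rfl
    | add p q _ _ hp hq =>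
      refine ⟨fun x hx => X.add_mem (hp.1 x hx) (hq.1 x hx),
        fun x hx => X.add_mem (hp.2.1 x hx) (hq.2.1 x hx), fun x hx y hy => ?_⟩
      show (B₀.compl₁₂ π π) (p.1 x + q.1 x) y = (B₀.compl₁₂ π π) x (p.2 y + q.2 y)
      rw [map_add, map_add, LinearMap.add_apply, hp.2.2 x hx y hy, hq.2.2 x hx y hy]
    | smul t p _ hp =>
      refine ⟨fun x hx => X.smul_mem t (hp.1 x hx), fun x hx => X.smul_mem t (hp.2.1 x hx),
        fun x hx y hy => ?_⟩
      show (B₀.compl₁₂ π π) (t • p.1 x) y = (B₀.compl₁₂ π π) x (t • p.2 y)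
      rw [map_smul, map_smul, LinearMap.smul_apply, hp.2.2 x hx y hy]
  obtain ⟨q1, q2, q3⟩ := hall _ haT
  refine ⟨X, le_sup_left, hfin, q1, q2, B₀.compl₁₂ π π, ?_, ?_, q3⟩
  · intro x hx y hy
    rw [LinearMap.compl₁₂_apply, LinearMap.compl₁₂_apply]
    exact hsym _ _
  · intro x hx hx0
    rw [LinearMap.compl₁₂_apply, hπx x hx]
    exact hpos _ (fun h => hx0 (congrArg Subtype.val h))

theorem PN_HP {G : Subgroup (E ≃ₗᵢ[ℝ] E)} {N : Subgroup (E ≃L[ℝ] E)}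
    (hN : ∀ g ∈ G, ∀ S ∈ N, cg g S ∈ N) (hb : LB N) : HP G (PN N) where
  swap := fun _ _ h => PN_swap h
  mul := fun _ _ _ _ h h' => PN_mul h h'
  conj := fun _ hg _ _ h => PN_conj hN hg h
  fin := fun _ _ h => PN_fin h
  form := fun _ _ h X₀ hX₀ => PN_form hb h X₀ hX₀

/-- the finite-dimensional case -/
theorem para_fin [FiniteDimensional ℝ E] {G : Subgroup (E ≃ₗᵢ[ℝ] E)} (hG : AT G) (x y : E) :
    ‖x + y‖ ^ 2 + ‖x - y‖ ^ 2 = 2 * (‖x‖ ^ 2 + ‖y‖ ^ 2) := by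
  by_cases hE : ∃ u : E, ‖u‖ = 1
  swap
  · have h0 : ∀ z : E, z = 0 := by
      intro z
      by_contra hz
      refine hE ⟨‖z‖⁻¹ • z, ?_⟩
      rw [norm_smul, norm_inv, norm_norm, inv_mul_cancel₀ (norm_ne_zero_iff.2 hz)]
    rw [h0 x, h0 y]; simp
  obtain ⟨u, hu⟩ := hE
  let Γ : Subgroup (E ≃L[ℝ] E) :=
    { carrier := {R | ∀ x, ‖R x‖ = ‖x‖}
      mul_mem' := by
        intro R R' h1 h2 x
        show ‖R (R' x)‖ = ‖x‖
        rw [h1, h2]
      one_mem' := fun x => rfl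
      inv_mem' := by
        intro R h1 x
        rw [← h1 (R⁻¹ x)]
        congr 1
        exact R.apply_symm_apply x }
  obtain ⟨B, hsym, hpos, hinv⟩ := exists_inv (V := E) Γ 1 (by
    intro R hR x
    rw [hR x, one_mul])
  let B' : E →L[ℝ] (E →L[ℝ] ℝ) := LinearMap.toContinuousLinearMap
    (((LinearMap.toContinuousLinearMap : (E →ₗ[ℝ] ℝ) ≃ₗ[ℝ] (E →L[ℝ] ℝ)) : (E →ₗ[ℝ] ℝ) →ₗ[ℝ] (E →L[ℝ] ℝ)) ∘ₗ B)
  have hB' : ∀ x y, B' x y = B x y := fun x y => rfl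
  have hcont : Continuous (fun x : E => B x x) := by
    have : (fun x : E => B x x) = fun x => B' x x := rfl
    rw [this]
    exact B'.continuous.clm_apply continuous_id
  have hun : ∀ v : E, ‖v‖ = 1 → B v v = B u u := by
    intro v hv
    -- `v` is a limit of the orbit of `u`
    have hv' : v ∈ closure {z : E | B z z = B u u} := by
      rw [Metric.mem_closure_iff]
      intro ε hε
      obtain ⟨T, hT, hTv⟩ := hG u v hu hv ε hε
      refine ⟨T u, ?_, by rw [dist_comm, dist_eq_norm]; exact hTv⟩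
      exact hinv T.toContinuousLinearEquiv (fun x => T.norm_map x) u u
    rw [(isClosed_eq hcont continuous_const).closure_eq] at hv'
    exact hv'
  have hall : ∀ v : E, B v v = B u u * ‖v‖ ^ 2 := by
    intro v
    by_cases hv : v = 0
    · rw [hv]; simp
    have hn : ‖v‖ ≠ 0 := norm_ne_zero_iff.2 hv
    have h1 := hun (‖v‖⁻¹ • v) (by rw [norm_smul, norm_inv, norm_norm, inv_mul_cancel₀ hn])
    rw [map_smul, map_smul, LinearMap.smul_apply, smul_eq_mul, smul_eq_mul] at h1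
    rw [← h1]
    field_simp
  have hu0 : 0 < B u u := hpos u (by rintro rfl; simp at hu)
  have e1 : B (x + y) (x + y) + B (x - y) (x - y) = 2 * (B x x + B y y) := by
    simp only [map_add, map_sub, LinearMap.add_apply, LinearMap.sub_apply]
    ring
  rw [hall (x + y), hall (x - y), hall x, hall y] at e1
  have e2 : B u u * (‖x + y‖ ^ 2 + ‖x - y‖ ^ 2) = B u u * (2 * (‖x‖ ^ 2 + ‖y‖ ^ 2)) := by
    linarith
  exact mul_left_cancel₀ hu0.ne' e2

/-- **Main theorem.** -/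
theorem main {G : Subgroup (E ≃ₗᵢ[ℝ] E)} (hG : AT G) {N : Subgroup (E ≃L[ℝ] E)}
    (hN : ∀ g ∈ G, ∀ S ∈ N, cg g S ∈ N) (hb : LB N) (hS : ∃ S ∈ N, FinR S ∧ ∃ x, S x ≠ x)
    (x y : E) : ‖x + y‖ ^ 2 + ‖x - y‖ ^ 2 = 2 * (‖x‖ ^ 2 + ‖y‖ ^ 2) := by
  by_cases hE : FiniteDimensional ℝ E
  · exact para_fin hG x y
  obtain ⟨S, hS, hSf, z, hz⟩ := hS
  refine (PN_HP hN hb).para hG hE ⟨dl S, dl S⁻¹, Submodule.subset_span ⟨S, hS, hSf, rfl⟩, ?_⟩ x y
  intro h
  apply hz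
  have : dl S z = 0 := by rw [h]; rfl
  rw [dl_apply] at this
  exact sub_eq_zero.1 this

theorem main_iso {G : Subgroup (E ≃ₗᵢ[ℝ] E)} (hG : AT G) {N : Subgroup (E ≃L[ℝ] E)}
    (hN : ∀ g ∈ G, ∀ S ∈ N, cg g S ∈ N) (hb : LB N) (hE : ¬ FiniteDimensional ℝ E) :
    ∀ S ∈ N, FinR S → ∀ x, ‖S x‖ = ‖x‖ := by
  intro S hS hSf x
  have h1 : (dl S, dl S⁻¹) ∈ PN N := Submodule.subset_span ⟨S, hS, hSf, rfl⟩
  have h2 : (dl S⁻¹ + 1) * (dl S + 1) = 1 := by
    ext z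
    show dl S⁻¹ (dl S z + z) + (dl S z + z) = z
    rw [dl_apply, dl_apply, sub_add_cancel, sub_add_cancel]
    exact S.symm_apply_apply z
  have h3 := (PN_HP hN hb).iso hG hE h1 h2 x
  rwa [dl_apply, sub_add_cancel] at h3

/-- the group of all isometries is locally bounded -/
theorem LB_iso (N : Subgroup (E ≃L[ℝ] E)) (h : ∀ S ∈ N, ∀ x, ‖S x‖ = ‖x‖) : LB N := by
  intro F _ hF
  refine ⟨1, fun S hS x => ?_⟩
  rw [one_mul, h S ((Subgroup.closure_le N).2 hF hS) x]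

/-- the group of all isometries, as a group of operators -/
def isoGroup (E : Type*) [NormedAddCommGroup E] [NormedSpace ℝ E] : Subgroup (E ≃L[ℝ] E) where
  carrier := {R | ∀ x, ‖R x‖ = ‖x‖}
  mul_mem' := by
    intro R R' h1 h2 x
    show ‖R (R' x)‖ = ‖x‖
    rw [h1, h2]
  one_mem' := fun x => rfl
  inv_mem' := by
    intro R h1 x
    rw [← h1 (R⁻¹ x)]
    congr 1
    exact R.apply_symm_apply x

theorem main_isom {G : Subgroup (E ≃ₗᵢ[ℝ] E)} (hG : AT G) {T : E ≃ₗᵢ[ℝ] E}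
    (hT : FinR T.toContinuousLinearEquiv) (hT1 : ∃ x, T x ≠ x) (x y : E) :
    ‖x + y‖ ^ 2 + ‖x - y‖ ^ 2 = 2 * (‖x‖ ^ 2 + ‖y‖ ^ 2) := by
  refine main hG (N := isoGroup E) ?_ (LB_iso _ fun S hS => hS)
    ⟨T.toContinuousLinearEquiv, fun x => T.norm_map x, hT, hT1⟩ x y
  intro g _ S hS x
  rw [cg_apply, g.norm_map, hS, g.symm.norm_map]

end Pool.Agent.J6H26.FR
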