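import Mathlib

/-! # Chains on the unit sphere, and products of isometries which move a vector slightly -/

namespace Pool.Agent.J6H26.FR

variable {E : Type*} [NormedAddCommGroup E] [NormedSpace ℝ E]

/-- `Ch δ n u v`: the unit vectors `u` and `v` are joined by a chain of at most `n` steps of length
less than `δ` on the unit sphere -/
inductive Ch (δ : ℝ) : ℕ → E → E → Prop
  | refl (n : ℕ) (u : E) (hu : ‖u‖ = 1) : Ch δ n u u
  | step (n : ℕ) (u v w : E) (h : Ch δ n u v) (hw : ‖w‖ = 1) (hd : ‖w - v‖ < δ) :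
      Ch δ (n + 1) u w

omit [NormedSpace ℝ E] in
theorem Ch.mono {δ : ℝ} {n m : ℕ} {u v : E} (h : Ch δ n u v) (hm : n ≤ m) : Ch δ m u v := by
  induction h generalizing m with
  | refl n u hu => exact Ch.refl m u hu
  | step n u v w h hw hd ih =>
    obtain ⟨k, rfl⟩ : ∃ k, m = k + 1 := ⟨m - 1, by omega⟩
    exact Ch.step k u v w (ih (by omega)) hw hd

theorem Ch.trans {δ : ℝ} {n m : ℕ} {u v w : E} (h : Ch δ n u v) (h' : Ch δ m v w) :
    Ch δ (n + m) u w := by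
  induction h' with
  | refl m v hv => exact h.mono (by omega)
  | step m v x w h1 hw hd ih => exact Ch.step (n + m) u x w (ih h) hw hd

lemma norm_normalize_sub {x y : E} {c : ℝ} (hc : 0 < c) (hx : c ≤ ‖x‖) (hy : c ≤ ‖y‖) :
    ‖‖x‖⁻¹ • x - ‖y‖⁻¹ • y‖ ≤ 2 * ‖x - y‖ / c := by
  have hx0 : 0 < ‖x‖ := hc.trans_le hx
  have hy0 : 0 < ‖y‖ := hc.trans_le hy
  have h1 : ‖x‖⁻¹ • x - ‖y‖⁻¹ • y = ‖x‖⁻¹ • (x - y) + (‖x‖⁻¹ - ‖y‖⁻¹) • y := by
    rw [smul_sub, sub_smul]; abel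
  have h2 : ‖(‖x‖⁻¹ - ‖y‖⁻¹) • y‖ ≤ ‖x‖⁻¹ * ‖x - y‖ := by
    rw [norm_smul, Real.norm_eq_abs]
    have h3 : (‖x‖⁻¹ - ‖y‖⁻¹) = ‖x‖⁻¹ * ‖y‖⁻¹ * (‖y‖ - ‖x‖) := by field_simp
    rw [h3, abs_mul, abs_of_nonneg (by positivity)]
    have h4 : |‖y‖ - ‖x‖| ≤ ‖x - y‖ := by
      rw [abs_sub_comm]; exact abs_norm_sub_norm_le x y
    calc ‖x‖⁻¹ * ‖y‖⁻¹ * |‖y‖ - ‖x‖| * ‖y‖ = ‖x‖⁻¹ * |‖y‖ - ‖x‖| := by field_simp
      _ ≤ ‖x‖⁻¹ * ‖x - y‖ := by gcongr
  have h5 : ‖x‖⁻¹ ≤ c⁻¹ := inv_anti₀ hc hx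
  calc ‖‖x‖⁻¹ • x - ‖y‖⁻¹ • y‖ ≤ ‖‖x‖⁻¹ • (x - y)‖ + ‖(‖x‖⁻¹ - ‖y‖⁻¹) • y‖ := by
        rw [h1]; exact norm_add_le _ _
    _ ≤ ‖x‖⁻¹ * ‖x - y‖ + ‖x‖⁻¹ * ‖x - y‖ := by
        refine add_le_add (le_of_eq ?_) h2
        rw [norm_smul, norm_inv, norm_norm]
    _ ≤ c⁻¹ * ‖x - y‖ + c⁻¹ * ‖x - y‖ := by gcongr
    _ = 2 * ‖x - y‖ / c := by field_simp; ring

/-- the case of two vectors whose sum is not small -/
theorem chain_seg {δ : ℝ} (hδ : 0 < δ) : ∃ n : ℕ, ∀ u v : E, ‖u‖ = 1 → ‖v‖ = 1 →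
    1 / 2 ≤ ‖u + v‖ → Ch δ n u v := by
  obtain ⟨n, hn⟩ := exists_nat_gt (36 / δ)
  have hn0 : 0 < (n : ℝ) := lt_trans (by positivity) hn
  refine ⟨n, fun u v hu hv huv => ?_⟩
  -- the segment
  set z : ℝ → E := fun t => (1 - t) • u + t • v with hz
  have hlow : ∀ t : ℝ, 0 ≤ t → t ≤ 1 → 1 / 9 ≤ ‖z t‖ := by
    intro t ht0 ht1
    have e1 : (1 - t) - t ≤ ‖z t‖ := by
      have := norm_sub_le_norm_add ((1 - t) • u) (t • v)
      rw [norm_smul, norm_smul, hu, hv, Real.norm_of_nonneg (by linarith),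
        Real.norm_of_nonneg ht0, mul_one, mul_one] at this
      exact this
    have e2 : t - (1 - t) ≤ ‖z t‖ := by
      have := norm_sub_le_norm_add (t • v) ((1 - t) • u)
      rw [norm_smul, norm_smul, hu, hv, Real.norm_of_nonneg ht0,
        Real.norm_of_nonneg (by linarith : (0 : ℝ) ≤ 1 - t), mul_one, mul_one,
        add_comm (t • v)] at this
      exact this
    rcases le_total t (1 / 2) with h | h
    · have e3 : z t = t • (u + v) + (1 - 2 * t) • u := by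
        rw [hz]; module
      have e4 : t * ‖u + v‖ - (1 - 2 * t) ≤ ‖z t‖ := by
        have := norm_sub_le_norm_add (t • (u + v)) ((1 - 2 * t) • u)
        rw [norm_smul, norm_smul, hu, Real.norm_of_nonneg ht0,
          Real.norm_of_nonneg (by linarith), mul_one] at this
        rw [e3]; exact this
      have e5 : t * (1 / 2) ≤ t * ‖u + v‖ := by gcongr
      by_contra hcon
      push Not at hcon
      nlinarith
    · have e3 : z t = (1 - t) • (u + v) + (2 * t - 1) • v := by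
        rw [hz]; module
      have e4 : (1 - t) * ‖u + v‖ - (2 * t - 1) ≤ ‖z t‖ := by
        have := norm_sub_le_norm_add ((1 - t) • (u + v)) ((2 * t - 1) • v)
        rw [norm_smul, norm_smul, hv, Real.norm_of_nonneg (by linarith),
          Real.norm_of_nonneg (by linarith), mul_one] at this
        rw [e3]; exact this
      have e5 : (1 - t) * (1 / 2) ≤ (1 - t) * ‖u + v‖ := by
        have : 0 ≤ 1 - t := by linarith
        gcongr
      by_contra hcon
      push Not at hcon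
      nlinarith
  set p : ℝ → E := fun t => ‖z t‖⁻¹ • z t with hp
  have hp1 : ∀ t : ℝ, 0 ≤ t → t ≤ 1 → ‖p t‖ = 1 := by
    intro t h0 h1
    have : 0 < ‖z t‖ := lt_of_lt_of_le (by norm_num) (hlow t h0 h1)
    rw [hp]
    simp only
    rw [norm_smul, norm_inv, norm_norm, inv_mul_cancel₀ this.ne']
  have hp0 : p 0 = u := by
    simp [hp, hz, hu]
  have hpe : p 1 = v := by
    simp [hp, hz, hv]
  have key : ∀ k : ℕ, k ≤ n → Ch δ k u (p (k / n)) := by
    intro k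
    induction k with
    | zero =>
      intro _
      rw [Nat.cast_zero, zero_div, hp0]
      exact Ch.refl 0 u hu
    | succ k ih =>
      intro hk
      have hk0 : (0 : ℝ) ≤ (k : ℝ) / n := by positivity
      have hk1 : ((k + 1 : ℕ) : ℝ) / n ≤ 1 := by
        rw [div_le_one hn0]; exact_mod_cast hk
      have hk2 : (k : ℝ) / n ≤ 1 := by
        rw [div_le_one hn0]; exact_mod_cast (by omega : k ≤ n)
      have hk3 : (0 : ℝ) ≤ ((k + 1 : ℕ) : ℝ) / n := by positivity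
      refine Ch.step k u _ _ (ih (by omega)) (hp1 _ hk3 hk1) ?_
      have h1 := norm_normalize_sub (by norm_num : (0 : ℝ) < 1 / 9) (hlow _ hk3 hk1)
        (hlow _ hk0 hk2)
      refine lt_of_le_of_lt h1 ?_
      have h2 : z (((k + 1 : ℕ) : ℝ) / n) - z ((k : ℝ) / n) = (1 / (n : ℝ)) • (v - u) := by
        have e : ((k + 1 : ℕ) : ℝ) / n = (k : ℝ) / n + 1 / n := by
          rw [Nat.cast_add, Nat.cast_one, add_div]
        rw [e, hz]
        module
      have h3 : ‖z (((k + 1 : ℕ) : ℝ) / n) - z ((k : ℝ) / n)‖ ≤ 2 / n := by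
        rw [h2, norm_smul, Real.norm_of_nonneg (by positivity)]
        have : ‖v - u‖ ≤ 2 := by
          refine (norm_sub_le _ _).trans ?_
          rw [hu, hv]; norm_num
        calc 1 / (n : ℝ) * ‖v - u‖ ≤ 1 / n * 2 := by gcongr
          _ = 2 / n := by ring
      calc 2 * ‖z (((k + 1 : ℕ) : ℝ) / n) - z ((k : ℝ) / n)‖ / (1 / 9) ≤ 2 * (2 / n) / (1 / 9) := by
            gcongr
        _ = 36 / n := by ring
        _ < δ := by
            rw [div_lt_iff₀ hn0]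
            rw [div_lt_iff₀ hδ] at hn
            linarith
  have := key n le_rfl
  rwa [div_self hn0.ne', hpe] at this

/-- any two unit vectors are joined by a chain of a bounded number of small steps -/
theorem chain_all (hE : ¬ FiniteDimensional ℝ E) {δ : ℝ} (hδ : 0 < δ) :
    ∃ n : ℕ, ∀ u v : E, ‖u‖ = 1 → ‖v‖ = 1 → Ch δ n u v := by
  obtain ⟨n, hn⟩ := chain_seg (E := E) hδ
  refine ⟨n + (n + n), fun u v hu hv => ?_⟩
  rcases le_or_gt (1 / 2) ‖u + v‖ with h | h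
  · exact (hn u v hu hv h).mono (by omega)
  have hv' : ‖-v‖ = 1 := by rw [norm_neg]; exact hv
  have h1 : 1 / 2 ≤ ‖u + -v‖ := by
    have e : ‖(2 : ℝ) • u‖ ≤ ‖u + v‖ + ‖u + -v‖ := by
      have : (2 : ℝ) • u = (u + v) + (u + -v) := by module
      rw [this]; exact norm_add_le _ _
    rw [norm_smul, hu] at e
    norm_num at e
    linarith
  -- a vector far from the line of `v`
  have hF : ∃ x : E, x ∉ (ℝ ∙ v) := by
    by_contra hcon
    push Not at hcon
    apply hE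
    have htop : (ℝ ∙ v) = ⊤ := by
      rw [eq_top_iff]; intro x _; exact hcon x
    have hfin : FiniteDimensional ℝ (⊤ : Submodule ℝ E) := by
      rw [← htop]; infer_instance
    exact Module.Finite.of_surjective (⊤ : Submodule ℝ E).subtype (fun x => ⟨⟨x, trivial⟩, rfl⟩)
  obtain ⟨x, hx, hxr⟩ := riesz_lemma (F := (ℝ ∙ v)) (Submodule.closed_of_finiteDimensional _) hF
    (r := 1 / 2) (by norm_num)
  have hx0 : x ≠ 0 := by
    rintro rfl; exact hx (zero_mem _)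
  have hxn : 0 < ‖x‖ := norm_pos_iff.2 hx0
  set w : E := ‖x‖⁻¹ • x with hw
  have hw1 : ‖w‖ = 1 := by
    rw [hw, norm_smul, norm_inv, norm_norm, inv_mul_cancel₀ hxn.ne']
  have hfar : ∀ y ∈ (ℝ ∙ v), 1 / 2 ≤ ‖w - y‖ := by
    intro y hy
    have h2 := hxr (‖x‖ • y) (Submodule.smul_mem _ _ hy)
    have h3 : w - y = ‖x‖⁻¹ • (x - ‖x‖ • y) := by
      rw [smul_sub, smul_smul, inv_mul_cancel₀ hxn.ne', one_smul]
    rw [h3, norm_smul, norm_inv, norm_norm]
    calc (1 / 2 : ℝ) = ‖x‖⁻¹ * (1 / 2 * ‖x‖) := by field_simp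
      _ ≤ ‖x‖⁻¹ * ‖x - ‖x‖ • y‖ := by gcongr
  have hvm : v ∈ (ℝ ∙ v) := Submodule.mem_span_singleton_self v
  have h4 : 1 / 2 ≤ ‖-v + w‖ := by
    have := hfar v hvm
    rwa [show w - v = -v + w by abel] at this
  have h5 : 1 / 2 ≤ ‖w + v‖ := by
    have := hfar (-v) (Submodule.neg_mem _ hvm)
    rwa [sub_neg_eq_add] at this
  exact (hn u (-v) hu hv' h1).trans ((hn (-v) w hv' hw1 h4).trans (hn w v hw1 hv h5))

/-- dense orbits on the unit sphere -/
def AT (G : Subgroup (E ≃ₗᵢ[ℝ] E)) : Prop :=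
  ∀ x y : E, ‖x‖ = 1 → ‖y‖ = 1 → ∀ ε : ℝ, 0 < ε → ∃ T ∈ G, ‖T x - y‖ < ε

theorem prod_of_chain {G : Subgroup (E ≃ₗᵢ[ℝ] E)} (hG : AT G) {h : E} (hh : ‖h‖ = 1) {δ : ℝ}
    (hδ : 0 < δ) {n : ℕ} {u v : E} (hc : Ch (δ / 3) n u v) (hu : u = h) :
    ∀ g ∈ G, ‖g h - v‖ < δ / 3 → ∃ l : List (E ≃ₗᵢ[ℝ] E), l.length ≤ n + 1 ∧
      (∀ k ∈ l, k ∈ G ∧ ‖k h - h‖ < δ) ∧ l.prod = g := by
  induction hc with
  | refl n u hu' =>
    intro g hg hgv
    subst hu
    refine ⟨[g], by simp, ?_, by simp⟩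
    intro k hk
    rw [List.mem_singleton] at hk
    subst hk
    exact ⟨hg, by linarith⟩
  | step n u v w hc hw hd ih =>
    intro g hg hgw
    subst hu
    have hv : ‖v‖ = 1 := by
      cases hc with
      | refl n u hu' => exact hu'
      | step n u x v h1 h2 h3 => exact h2
    obtain ⟨g', hg', hgv⟩ := hG u v hh hv (δ / 3) (by positivity)
    obtain ⟨l, hl1, hl2, hl3⟩ := ih rfl g' hg' hgv
    refine ⟨l ++ [g'⁻¹ * g], by simp; omega, ?_, by simp [hl3]⟩
    intro k hk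
    rw [List.mem_append, List.mem_singleton] at hk
    rcases hk with hk | hk
    · exact hl2 k hk
    · subst hk
      refine ⟨G.mul_mem (G.inv_mem hg') hg, ?_⟩
      have e1 : ‖(g'⁻¹ * g) u - u‖ = ‖g u - g' u‖ := by
        rw [← LinearIsometryEquiv.norm_map g' ((g'⁻¹ * g) u - u), map_sub]
        congr 2
        show g' (g'.symm (g u)) = g u
        exact g'.apply_symm_apply _
      rw [e1]
      have e2 : g u - g' u = (g u - w) + (w - v) + (v - g' u) := by abel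
      rw [e2]
      have e3 : ‖v - g' u‖ < δ / 3 := by rw [norm_sub_rev]; exact hgv
      have e4 := norm_add₃_le (a := g u - w) (b := w - v) (c := v - g' u)
      linarith

/-- a group of isometries with dense orbits on the sphere is generated, with a bounded number of
factors, by the elements which move a given vector slightly -/
theorem exists_prod (hE : ¬ FiniteDimensional ℝ E) {G : Subgroup (E ≃ₗᵢ[ℝ] E)} (hG : AT G)
    {h : E} (hh : ‖h‖ = 1) {δ : ℝ} (hδ : 0 < δ) :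
    ∃ L : ℕ, ∀ g ∈ G, ∃ l : List (E ≃ₗᵢ[ℝ] E), l.length ≤ L ∧
      (∀ k ∈ l, k ∈ G ∧ ‖k h - h‖ < δ) ∧ l.prod = g := by
  obtain ⟨n, hn⟩ := chain_all hE (by positivity : 0 < δ / 3)
  refine ⟨n + 1, fun g hg => ?_⟩
  exact prod_of_chain hG hh hδ (hn h (g h) hh (by rw [g.norm_map, hh])) rfl g hg (by
    rw [sub_self, norm_zero]; positivity)

end Pool.Agent.J6H26.FR
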