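import Pool.Agent.J6H26.FR.Alg
import Pool.Agent.J6H26.FR.Chain

/-! # Dense orbits: the minimal projections have multiplicity one -/

namespace Pool.Agent.J6H26.FR

open Module

variable {E : Type*} [NormedAddCommGroup E] [NormedSpace ℝ E]

/-- on a finite-dimensional space a linear map is bounded by an injective one -/
theorem bd {W F F' : Type*} [AddCommGroup W] [Module ℝ W] [NormedAddCommGroup F] [NormedSpace ℝ F]
    [NormedAddCommGroup F'] [NormedSpace ℝ F'] (F1 : W →ₗ[ℝ] F) (F2 : W →ₗ[ℝ] F')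
    (hinj : Function.Injective F1) (hfin : FiniteDimensional ℝ W) :
    ∃ C : ℝ, 0 ≤ C ∧ ∀ w, ‖F2 w‖ ≤ C * ‖F1 w‖ := by
  let e : W ≃ₗ[ℝ] LinearMap.range F1 := LinearEquiv.ofInjective F1 hinj
  have : FiniteDimensional ℝ (LinearMap.range F1) := e.finiteDimensional
  let T : LinearMap.range F1 →L[ℝ] F' := LinearMap.toContinuousLinearMap (F2 ∘ₗ e.symm.toLinearMap)
  refine ⟨‖T‖, T.opNorm_nonneg, fun w => ?_⟩
  have h1 := T.le_opNorm (e w)
  have h2 : T (e w) = F2 w := by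
    show F2 (e.symm (e w)) = F2 w
    rw [e.symm_apply_apply]
  rw [h2] at h1
  exact h1

/-- the pairs in `e A e` -/
def DD (P : Submodule ℝ ((E →L[ℝ] E) × (E →L[ℝ] E))) (e : E →L[ℝ] E) :
    Submodule ℝ ((E →L[ℝ] E) × (E →L[ℝ] E)) where
  carrier := {p | p ∈ P ∧ e * p.1 = p.1 ∧ p.1 * e = p.1 ∧ e * p.2 = p.2 ∧ p.2 * e = p.2}
  add_mem' := by
    rintro a b ⟨a0, a1, a2, a3, a4⟩ ⟨b0, b1, b2, b3, b4⟩
    refine ⟨P.add_mem a0 b0, ?_, ?_, ?_, ?_⟩
    · rw [Prod.fst_add, mul_add, a1, b1]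
    · rw [Prod.fst_add, add_mul, a2, b2]
    · rw [Prod.snd_add, mul_add, a3, b3]
    · rw [Prod.snd_add, add_mul, a4, b4]
  zero_mem' := ⟨P.zero_mem, by simp, by simp, by simp, by simp⟩
  smul_mem' := by
    rintro t a ⟨a0, a1, a2, a3, a4⟩
    refine ⟨P.smul_mem t a0, ?_, ?_, ?_, ?_⟩
    · rw [Prod.smul_fst, mul_smul_comm, a1]
    · rw [Prod.smul_fst, smul_mul_assoc, a2]
    · rw [Prod.smul_snd, mul_smul_comm, a3]
    · rw [Prod.smul_snd, smul_mul_assoc, a4]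

namespace HP

variable {G : Subgroup (E ≃ₗᵢ[ℝ] E)} {P : Submodule ℝ ((E →L[ℝ] E) × (E →L[ℝ] E))}

theorem Mn.dd (H : HP G P) {e : E →L[ℝ] E} (he : Mn P e) {a a' : E →L[ℝ] E} (ha : (a, a') ∈ P) :
    (e * a * e, e * a' * e) ∈ DD P e := by
  have h1 : (e * a * e, e * (a' * e)) ∈ P :=
    H.mul _ _ _ _ (H.mul _ _ _ _ he.mem ha) he.mem
  refine ⟨by rw [mul_assoc e a' e]; exact h1, ?_, ?_, ?_, ?_⟩
  · simp only [← mul_assoc, he.idem]
  · simp only [mul_assoc, he.idem]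
  · simp only [← mul_assoc, he.idem]
  · simp only [mul_assoc, he.idem]

theorem Mn.bdd (H : HP G P) {e : E →L[ℝ] E} (he : Mn P e) {h : E} (heh : e h = h) (h0 : h ≠ 0) :
    ∃ C : ℝ, 0 ≤ C ∧ ∀ p ∈ DD P e, ‖p.1‖ ≤ C * ‖p.1 h‖ ∧ ‖p.2‖ ≤ C * ‖p.1 h‖ := by
  let F1 : DD P e →ₗ[ℝ] E :=
    { toFun := fun p => p.1.1 h
      map_add' := fun p q => rfl
      map_smul' := fun t p => rfl }
  have hinj : Function.Injective F1 := by
    rw [injective_iff_map_eq_zero]
    rintro ⟨⟨a, b⟩, hP, h1, h2, h3, h4⟩ hp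
    have ha : a = 0 := by
      by_contra hne
      exact h0 (he.inj H hP (by rw [h2]; exact hne) heh hp)
    subst ha
    have hb := H.adj_zero hP
    subst hb
    rfl
  have hfM := H.fin _ _ he.mem
  have hfin : FiniteDimensional ℝ (DD P e) := by
    have hr : ∀ p : DD P e, F1 p ∈ LinearMap.range (e : E →ₗ[ℝ] E) := fun p =>
      ⟨p.1.1 h, congrArg (fun z : E →L[ℝ] E => z h) p.2.2.1⟩
    refine FiniteDimensional.of_injective (F1.codRestrict _ hr) ?_
    intro p q hpq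
    exact hinj (congrArg Subtype.val hpq)
  obtain ⟨C1, hC1, h1⟩ := bd F1 ((LinearMap.fst ℝ (E →L[ℝ] E) (E →L[ℝ] E)).comp (DD P e).subtype)
    hinj hfin
  obtain ⟨C2, hC2, h2⟩ := bd F1 ((LinearMap.snd ℝ (E →L[ℝ] E) (E →L[ℝ] E)).comp (DD P e).subtype)
    hinj hfin
  refine ⟨C1 + C2, by positivity, fun p hp => ⟨?_, ?_⟩⟩
  · refine (h1 ⟨p, hp⟩).trans ?_
    have : ‖F1 ⟨p, hp⟩‖ = ‖p.1 h‖ := rfl
    rw [this]
    nlinarith [norm_nonneg (p.1 h)]
  · refine (h2 ⟨p, hp⟩).trans ?_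
    have : ‖F1 ⟨p, hp⟩‖ = ‖p.1 h‖ := rfl
    rw [this]
    nlinarith [norm_nonneg (p.1 h)]

/-- the conjugate projection does not kill `h` if `g` moves `h` slightly -/
theorem Mn.cj_ne {e : E →L[ℝ] E} {h : E} (heh : e h = h) (hh : ‖h‖ = 1) {g : E ≃ₗᵢ[ℝ] E}
    (hg : ‖g h - h‖ < (‖e‖ + 1)⁻¹) : cj g e h ≠ 0 := by
  intro h0
  have h1 : g h = cj g e (g h - h) := by
    rw [map_sub, h0, sub_zero, cj_apply', heh]
  have h2 := norm_cj_apply_le g e (g h - h)
  rw [← h1, g.norm_map, hh] at h2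
  have h3 : ‖e‖ * ‖g h - h‖ ≤ ‖e‖ * (‖e‖ + 1)⁻¹ := by gcongr
  have h4 : ‖e‖ * (‖e‖ + 1)⁻¹ < 1 := by
    rw [mul_inv_lt_iff₀ (by positivity)]
    linarith [norm_nonneg e]
  linarith

/-- the range of `e` is not invariant under the algebra -/
theorem Mn.off (H : HP G P) (hG : AT G) (hE : ¬ FiniteDimensional ℝ E) {e : E →L[ℝ] E}
    (he : Mn P e) {h : E} (heh : e h = h) (hh : ‖h‖ = 1) :
    ∃ a a', (a, a') ∈ P ∧ a * e - e * a * e ≠ 0 := by
  by_contra hcon
  push Not at hcon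
  have hcon' : ∀ a a', (a, a') ∈ P → a * e = e * a * e := fun a a' ha =>
    sub_eq_zero.1 (hcon a a' ha)
  have hfM := H.fin _ _ he.mem
  -- small elements of `G` preserve the range of `e`
  have hsmall : ∀ g ∈ G, ‖g h - h‖ < (‖e‖ + 1)⁻¹ → ∀ x, e x = x → e (g x) = g x := by
    intro g hg hgh x hx
    set c : E →L[ℝ] E := cj g e * e with hc
    have hcP : (c, e * cj g e) ∈ P := H.mul _ _ _ _ (H.conj g hg _ _ he.mem) he.mem
    have hc0 : c ≠ 0 := by
      intro h0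
      apply Mn.cj_ne heh hh hgh
      have : c h = 0 := by rw [h0]; rfl
      have h1 : c h = cj g e (e h) := rfl
      rwa [h1, heh] at this
    have hrk := he.le _ _ hcP hc0
    have hfg := H.fin _ _ (H.conj g hg _ _ he.mem)
    have hle : LinearMap.range (c : E →ₗ[ℝ] E) ≤ LinearMap.range (cj g e : E →ₗ[ℝ] E) := by
      rintro _ ⟨y, rfl⟩
      exact ⟨e y, rfl⟩
    have heq : LinearMap.range (c : E →ₗ[ℝ] E) = LinearMap.range (cj g e : E →ₗ[ℝ] E) := by
      refine Submodule.eq_of_le_of_finrank_le hle ?_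
      have := rk_cj g e
      unfold rk at this hrk
      rw [this]
      exact hrk
    have hgx : g x ∈ LinearMap.range (c : E →ₗ[ℝ] E) := by
      rw [heq]
      refine ⟨g x, ?_⟩
      show cj g e (g x) = g x
      rw [cj_apply', hx]
    obtain ⟨y, hy⟩ := hgx
    have hy' : c y = g x := hy
    rw [← hy']
    have h2 := hcon' _ _ (H.conj g hg _ _ he.mem)
    rw [mul_assoc] at h2
    exact (congrArg (fun z : E →L[ℝ] E => z y) h2).symm
  obtain ⟨L, hL⟩ := exists_prod hE hG hh (by positivity : 0 < (‖e‖ + 1)⁻¹)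
  have hall : ∀ g ∈ G, ∀ x, e x = x → e (g x) = g x := by
    intro g hg
    obtain ⟨l, -, hl, rfl⟩ := hL g hg
    clear hg
    induction l with
    | nil => intro x hx; simpa using hx
    | cons k l ih =>
      intro x hx
      rw [List.prod_cons]
      have h1 := hl k (by simp)
      exact hsmall k h1.1 h1.2 _ (ih (fun k hk => hl k (by simp [hk])) x hx)
  -- so `e = 1`
  have hone : ∀ y : E, e y = y := by
    have hunit : ∀ y : E, ‖y‖ = 1 → e y = y := by
      intro y hy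
      by_contra hne
      have hpos : 0 < ‖e y - y‖ := norm_pos_iff.2 (sub_ne_zero.2 hne)
      obtain ⟨g, hg, hgy⟩ := hG h y hh hy (‖e y - y‖ / (2 * (‖e‖ + 1))) (by positivity)
      have h1 := hall g hg h heh
      have h2 : e y - y = e (y - g h) - (y - g h) := by
        rw [map_sub, h1]; abel
      have h3 : ‖e y - y‖ ≤ (‖e‖ + 1) * ‖y - g h‖ := by
        rw [h2]
        refine (norm_sub_le _ _).trans ?_
        have := e.le_opNorm (y - g h)
        linarith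
      rw [norm_sub_rev] at hgy
      rw [lt_div_iff₀ (by positivity)] at hgy
      nlinarith
    intro y
    by_cases hy : y = 0
    · rw [hy, map_zero]
    have hn : ‖y‖ ≠ 0 := norm_ne_zero_iff.2 hy
    have h1 := hunit (‖y‖⁻¹ • y) (by rw [norm_smul, norm_inv, norm_norm, inv_mul_cancel₀ hn])
    rw [map_smul] at h1
    exact smul_right_injective E (inv_ne_zero hn) h1
  apply hE
  have : LinearMap.range (e : E →ₗ[ℝ] E) = ⊤ := by
    rw [eq_top_iff]
    intro y _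
    exact ⟨y, hone y⟩
  have hfin : FiniteDimensional ℝ (⊤ : Submodule ℝ E) := by rw [← this]; exact hfM
  exact Module.Finite.of_surjective (⊤ : Submodule ℝ E).subtype (fun x => ⟨⟨x, trivial⟩, rfl⟩)

end HP

end Pool.Agent.J6H26.FR
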