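import Mathlib

/-! # Inner products invariant under a bounded group of operators of a finite-dimensional space

For a finite-dimensional real normed space `V` and a compact set `K` of functionals with nonempty
interior the form `∫_K l(u) l(v) dl` is an inner product; it is invariant under all linear
isomorphisms which preserve `K`. (For the dual unit ball this is the starting file
`Pool/Agent/H826R2/Wein/InvInner.lean`, whose proof is followed here.) -/

open MeasureTheory Metric Set
open scoped Topology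

noncomputable section

namespace Pool.Agent.J6H26.FR

variable (V : Type*) [NormedAddCommGroup V] [NormedSpace ℝ V] [FiniteDimensional ℝ V]

set_option linter.unusedSectionVars false

/-- the measure on the dual -/
def muD : Measure (V →L[ℝ] ℝ) := Measure.addHaar

instance instHaarMuD : (muD V).IsAddHaarMeasure := by unfold muD; infer_instance

variable {V} {K : Set (V →L[ℝ] ℝ)}

lemma continuous_integrand (u v : V) : Continuous (fun l : V →L[ℝ] ℝ => l u * l v) := by
  have h : ∀ w : V, Continuous (fun l : V →L[ℝ] ℝ => l w) := fun w =>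
    (ContinuousLinearMap.apply ℝ ℝ w).continuous
  exact (h u).mul (h v)

lemma integrable_integrand (hK : IsCompact K) (u v : V) :
    IntegrableOn (fun l : V →L[ℝ] ℝ => l u * l v) K (muD V) :=
  (continuous_integrand u v).continuousOn.integrableOn_compact hK

/-- the bilinear form -/
def Qlin (hK : IsCompact K) : V →ₗ[ℝ] V →ₗ[ℝ] ℝ :=
  LinearMap.mk₂ ℝ (fun u v => ∫ l in K, l u * l v ∂(muD V))
    (by
      intro a b c
      rw [← integral_add (integrable_integrand hK a c) (integrable_integrand hK b c)]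
      congr 1; ext l; rw [map_add]; ring)
    (by
      intro r a b
      rw [smul_eq_mul, ← integral_const_mul]
      congr 1; ext l; rw [map_smul, smul_eq_mul]; ring)
    (by
      intro a b c
      rw [← integral_add (integrable_integrand hK a b) (integrable_integrand hK a c)]
      congr 1; ext l; rw [map_add]; ring)
    (by
      intro r a b
      rw [smul_eq_mul, ← integral_const_mul]
      congr 1; ext l; rw [map_smul, smul_eq_mul]; ring)

lemma Qlin_apply (hK : IsCompact K) (u v : V) :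
    Qlin hK u v = ∫ l in K, l u * l v ∂(muD V) := rfl

lemma Qlin_symm (hK : IsCompact K) (u v : V) : Qlin hK u v = Qlin hK v u := by
  rw [Qlin_apply, Qlin_apply]
  congr 1; ext l; ring

lemma Qlin_pos (hK : IsCompact K) {r : ℝ} (hr : 0 < r) (hball : ball 0 r ⊆ K) {u : V}
    (hu : u ≠ 0) : 0 < Qlin hK u u := by
  rw [Qlin_apply]
  refine (setIntegral_pos_iff_support_of_nonneg_ae (f := fun l : V →L[ℝ] ℝ => l u * l u)
    (Filter.Eventually.of_forall fun l => mul_self_nonneg (l u)) (integrable_integrand hK u u)).2 ?_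
  -- a functional not vanishing at `u`
  obtain ⟨l, hl⟩ : ∃ l : V →L[ℝ] ℝ, l u ≠ 0 := by
    by_contra h
    push Not at h
    obtain ⟨l, hl1, hl2⟩ := exists_dual_vector ℝ u (norm_ne_zero_iff.2 hu)
    rw [h l] at hl2
    have : ‖u‖ = 0 := by exact_mod_cast hl2.symm
    exact hu (norm_eq_zero.1 this)
  set l' : V →L[ℝ] ℝ := (r * (2 * (‖l‖ + 1))⁻¹) • l with hl'
  have hn : 0 < 2 * (‖l‖ + 1) := by positivity
  have h1 : l' u ≠ 0 := by
    rw [hl']
    simp only [_root_.smul_apply, smul_eq_mul]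
    exact mul_ne_zero (by positivity) hl
  have h2 : ‖l'‖ < r := by
    rw [hl', norm_smul, Real.norm_of_nonneg (by positivity), mul_assoc]
    have h3 : (2 * (‖l‖ + 1))⁻¹ * ‖l‖ < 1 := by
      rw [inv_mul_lt_iff₀ hn]
      have := norm_nonneg l
      linarith
    calc r * ((2 * (‖l‖ + 1))⁻¹ * ‖l‖) < r * 1 := by gcongr
      _ = r := mul_one r
  have hopen : IsOpen ({l : V →L[ℝ] ℝ | l u * l u ≠ 0} ∩ ball 0 r) := by
    refine IsOpen.inter ?_ isOpen_ball
    exact isOpen_ne_fun (continuous_integrand u u) continuous_const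
  refine lt_of_lt_of_le (hopen.measure_pos (muD V) ⟨l', ?_, ?_⟩) (measure_mono ?_)
  · exact mul_self_ne_zero.2 h1
  · rw [mem_ball_zero_iff]; exact h2
  · intro m hm
    exact ⟨hm.1, hball hm.2⟩

/-- precomposition with a linear equivalence -/
def pre (A : V ≃L[ℝ] V) : (V →L[ℝ] ℝ) ≃L[ℝ] (V →L[ℝ] ℝ) :=
  A.symm.arrowCongr (ContinuousLinearEquiv.refl ℝ ℝ)

lemma pre_apply (A : V ≃L[ℝ] V) (l : V →L[ℝ] ℝ) (v : V) : pre A l v = l (A v) := by
  simp [pre, ContinuousLinearEquiv.arrowCongr]

lemma measurePreserving_pre (hK : IsCompact K) {r : ℝ} (hr : 0 < r) (hball : ball 0 r ⊆ K)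
    (A : V ≃L[ℝ] V) (hA : (pre A) ⁻¹' K = K) :
    MeasurePreserving (pre A) (muD V) (muD V) := by
  refine ⟨(pre A).continuous.measurable, ?_⟩
  have hdet : LinearMap.det ((pre A : (V →L[ℝ] ℝ) →L[ℝ] (V →L[ℝ] ℝ)) :
      (V →L[ℝ] ℝ) →ₗ[ℝ] (V →L[ℝ] ℝ)) ≠ 0 :=
    (LinearEquiv.isUnit_det' (pre A).toLinearEquiv).ne_zero
  have h1 := Measure.map_linearMap_addHaar_eq_smul_addHaar (muD V) hdet
  have h2 : Measure.map (pre A) (muD V) = ENNReal.ofReal |(LinearMap.det
      ((pre A : (V →L[ℝ] ℝ) →L[ℝ] (V →L[ℝ] ℝ)) : (V →L[ℝ] ℝ) →ₗ[ℝ] (V →L[ℝ] ℝ)))⁻¹| • muD V := h1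
  have h3 : Measure.map (pre A) (muD V) K = muD V K := by
    rw [Measure.map_apply (pre A).continuous.measurable hK.isClosed.measurableSet, hA]
  have hpos : muD V K ≠ 0 :=
    (lt_of_lt_of_le (measure_ball_pos (muD V) 0 hr) (measure_mono hball)).ne'
  have hfin : muD V K ≠ ⊤ := hK.measure_lt_top.ne
  rw [h2, Measure.smul_apply, smul_eq_mul] at h3
  have h4 := (ENNReal.mul_eq_right hpos hfin).1 h3
  rw [h2, h4, one_smul]

lemma Qlin_invariant (hK : IsCompact K) {r : ℝ} (hr : 0 < r) (hball : ball 0 r ⊆ K)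
    (A : V ≃L[ℝ] V) (hA : (pre A) ⁻¹' K = K) (u v : V) :
    Qlin hK (A u) (A v) = Qlin hK u v := by
  rw [Qlin_apply, Qlin_apply]
  have h1 := (measurePreserving_pre hK hr hball A hA).setIntegral_preimage_emb
    (pre A).toHomeomorph.measurableEmbedding (fun l => l u * l v) K
  rw [hA] at h1
  rw [← h1]
  congr 1

/-- **Invariant inner products.** A bounded group of linear isomorphisms of a finite-dimensional
space preserves an inner product. -/
theorem exists_inv (Γ : Subgroup (V ≃L[ℝ] V)) (C : ℝ) (hC : ∀ S ∈ Γ, ∀ x, ‖S x‖ ≤ C * ‖x‖) :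
    ∃ B : V →ₗ[ℝ] V →ₗ[ℝ] ℝ, (∀ x y, B x y = B y x) ∧ (∀ x, x ≠ 0 → 0 < B x x) ∧
      ∀ S ∈ Γ, ∀ x y, B (S x) (S y) = B x y := by
  set K : Set (V →L[ℝ] ℝ) := {l | ∀ S ∈ Γ, ‖pre S l‖ ≤ 1} with hKdef
  have hproper : ProperSpace (V →L[ℝ] ℝ) := FiniteDimensional.proper ℝ _
  have hclosed : IsClosed K := by
    have : K = ⋂ S ∈ Γ, {l : V →L[ℝ] ℝ | ‖pre S l‖ ≤ 1} := by
      ext l; simp [hKdef]
    rw [this]
    refine isClosed_biInter fun S _ => ?_
    exact isClosed_le ((pre S).continuous.norm) continuous_const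
  have hpre1 : ∀ l : V →L[ℝ] ℝ, pre (1 : V ≃L[ℝ] V) l = l := by
    intro l; ext v; rw [pre_apply]; rfl
  have hsub : K ⊆ closedBall 0 1 := by
    intro l hl
    rw [mem_closedBall_zero_iff]
    have := hl 1 Γ.one_mem
    rwa [hpre1] at this
  have hK : IsCompact K := (isCompact_closedBall _ _).of_isClosed_subset hclosed hsub
  have hC0 : 0 < |C| + 1 := by positivity
  have hball : ball (0 : V →L[ℝ] ℝ) (|C| + 1)⁻¹ ⊆ K := by
    intro l hl S hS
    rw [mem_ball_zero_iff] at hl
    refine ContinuousLinearMap.opNorm_le_bound _ zero_le_one fun v => ?_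
    rw [pre_apply]
    calc ‖l (S v)‖ ≤ ‖l‖ * ‖S v‖ := l.le_opNorm _
      _ ≤ (|C| + 1)⁻¹ * ((|C| + 1) * ‖v‖) := by
          gcongr
          refine (hC S hS v).trans ?_
          gcongr
          have := le_abs_self C
          linarith
      _ = 1 * ‖v‖ := by field_simp
  have hinv : ∀ S ∈ Γ, (pre S) ⁻¹' K = K := by
    intro S hS
    have hmul : ∀ (R : V ≃L[ℝ] V) (l : V →L[ℝ] ℝ), pre R (pre S l) = pre (S * R) l := by
      intro R l; ext v
      rw [pre_apply, pre_apply, pre_apply]; rfl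
    ext l
    constructor
    · intro h R hR
      have := h (S⁻¹ * R) (Γ.mul_mem (Γ.inv_mem hS) hR)
      rw [hmul, mul_inv_cancel_left] at this
      exact this
    · intro h R hR
      show ‖pre R (pre S l)‖ ≤ 1
      rw [hmul]
      exact h _ (Γ.mul_mem hS hR)
  exact ⟨Qlin hK, Qlin_symm hK, fun x hx => Qlin_pos hK (by positivity) hball hx,
    fun S hS x y => Qlin_invariant hK (by positivity) hball S (hinv S hS) x y⟩

end Pool.Agent.J6H26.FR
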