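import Pool.Agent.J6H26.FR.Dens

/-! # Multiplicity one, and the vectors of the orbit -/

namespace Pool.Agent.J6H26.FR

open Module

variable {E : Type*} [NormedAddCommGroup E] [NormedSpace ℝ E]

namespace HP

variable {G : Subgroup (E ≃ₗᵢ[ℝ] E)} {P : Submodule ℝ ((E →L[ℝ] E) × (E →L[ℝ] E))}

theorem Mn.app {e : E →L[ℝ] E} (he : Mn P e) (x : E) : e (e x) = e x :=
  congrArg (fun z : E →L[ℝ] E => z x) he.idem

theorem Mn.one (H : HP G P) (hG : AT G) (hE : ¬ FiniteDimensional ℝ E) {e : E →L[ℝ] E}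
    (he : Mn P e) {h1 h2 : E} (eh1 : e h1 = h1) (h10 : h1 ≠ 0) (eh2 : e h2 = h2) :
    ∃ a a', (a, a') ∈ P ∧ a h1 = h2 := by
  classical
  set D1 : Submodule ℝ E := (DD P e).map
    ({ toFun := fun p => p.1 h1, map_add' := fun p q => rfl, map_smul' := fun t p => rfl } :
      ((E →L[ℝ] E) × (E →L[ℝ] E)) →ₗ[ℝ] E) with hD1
  have hfM := H.fin _ _ he.mem
  have hD1le : D1 ≤ LinearMap.range (e : E →ₗ[ℝ] E) := by
    rintro _ ⟨p, hp, rfl⟩
    exact ⟨p.1 h1, congrArg (fun z : E →L[ℝ] E => z h1) hp.2.1⟩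
  have hD1fin : FiniteDimensional ℝ D1 := Submodule.finiteDimensional_of_le hD1le
  have hD1closed : IsClosed (D1 : Set E) := Submodule.closed_of_finiteDimensional _
  by_cases hmem : h2 ∈ D1
  · obtain ⟨p, hp, hp2⟩ := hmem
    exact ⟨p.1, p.2, hp.1, hp2⟩
  exfalso
  -- a unit vector
  have hn1 : 0 < ‖h1‖ := norm_pos_iff.2 h10
  set h : E := ‖h1‖⁻¹ • h1 with hh
  have hh1 : ‖h‖ = 1 := by rw [hh, norm_smul, norm_inv, norm_norm, inv_mul_cancel₀ hn1.ne']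
  have eh : e h = h := by rw [hh, map_smul, eh1]
  obtain ⟨a, a', ha, hb0⟩ := he.off H hG hE eh hh1
  set b : E →L[ℝ] E := a * e - e * a * e with hb
  set b' : E →L[ℝ] E := e * a' - e * a' * e with hb'
  have hbP : (b, b') ∈ P := by
    have e1 : (a * e, e * a') ∈ P := H.mul _ _ _ _ ha he.mem
    have e2 : (e * a * e, e * a' * e) ∈ P := (he.dd H ha).1
    exact P.sub_mem e1 e2
  have hbe : b * e = b := by rw [hb, sub_mul, mul_assoc, he.idem, mul_assoc (e * a), he.idem]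
  have heb : e * b = 0 := by
    rw [hb, mul_sub, ← mul_assoc, ← mul_assoc, ← mul_assoc, he.idem, sub_self]
  have heb' : e * b' = b' := by
    rw [hb', mul_sub, ← mul_assoc, ← mul_assoc, ← mul_assoc, he.idem]
  have hb'e : b' * e = 0 := by
    rw [hb', sub_mul, mul_assoc (e * a'), he.idem, sub_self]
  obtain ⟨t, ht, -, htpos⟩ := he.lam H hbP
  have ht0 : 0 < t := htpos (by rw [hbe]; exact hb0)
  have hbb : b' * b = t • e := by
    rw [heb', mul_assoc, hbe] at ht; exact ht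
  set x : E := h1 + b h2 with hx
  have hex : e x = h1 := by
    have : e (b h2) = 0 := congrArg (fun z : E →L[ℝ] E => z h2) heb
    rw [hx, map_add, eh1, this, add_zero]
  have hbx : b' x = t • h2 := by
    have e1 : b' h1 = 0 := by
      have : b' (e h1) = 0 := congrArg (fun z : E →L[ℝ] E => z h1) hb'e
      rwa [eh1] at this
    have e2 : b' (b h2) = t • e h2 := congrArg (fun z : E →L[ℝ] E => z h2) hbb
    rw [hx, map_add, e1, zero_add, e2, eh2]
  have hx0 : x ≠ 0 := by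
    rintro h0
    rw [h0, map_zero] at hex
    exact h10 hex.symm
  have hxn : 0 < ‖x‖ := norm_pos_iff.2 hx0
  have hx1 : ‖‖x‖⁻¹ • x‖ = 1 := by rw [norm_smul, norm_inv, norm_norm, inv_mul_cancel₀ hxn.ne']
  set u0 : E := ‖x‖⁻¹ • h1 with hu0
  set w0 : E := ‖x‖⁻¹ • (t • h2) with hw0
  have heu : e (‖x‖⁻¹ • x) = u0 := by rw [map_smul, hex]
  have hbw : b' (‖x‖⁻¹ • x) = w0 := by rw [map_smul, hbx]
  have hu0pos : 0 < ‖u0‖ := norm_pos_iff.2 (smul_ne_zero (inv_ne_zero hxn.ne') h10)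
  obtain ⟨C, hC, hbd⟩ := he.bdd H eh1 h10
  set K : ℝ := 2 * C * ‖x‖ * (‖w0‖ + ‖b'‖) with hK
  have hK0 : 0 ≤ K := by positivity
  -- `w0` is in the closure of `D1`
  have hcl : w0 ∈ closure (D1 : Set E) := by
    rw [Metric.mem_closure_iff]
    intro ε hε
    obtain ⟨η, hη, hη1, hη2, hη3, hη4⟩ : ∃ η : ℝ, 0 < η ∧ η ≤ 1 ∧ ‖e‖ * η < ‖u0‖ ∧
        C * ‖x‖ * ‖e‖ * η ≤ 1 / 2 ∧ (‖b'‖ + K * ‖e‖) * η < ε := by
      refine ⟨min (min 1 (‖u0‖ / (‖e‖ + 1))) (min (1 / 2 / (C * ‖x‖ * ‖e‖ + 1))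
        (ε / (‖b'‖ + K * ‖e‖ + 1))), by positivity, ?_, ?_, ?_, ?_⟩
      · exact (min_le_left _ _).trans (min_le_left _ _)
      · have h1 : min (min 1 (‖u0‖ / (‖e‖ + 1))) (min (1 / 2 / (C * ‖x‖ * ‖e‖ + 1))
            (ε / (‖b'‖ + K * ‖e‖ + 1))) ≤ ‖u0‖ / (‖e‖ + 1) :=
          (min_le_left _ _).trans (min_le_right _ _)
        refine lt_of_le_of_lt (mul_le_mul_of_nonneg_left h1 (norm_nonneg _)) ?_
        rw [← mul_div_assoc, div_lt_iff₀ (by positivity)]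
        nlinarith [norm_nonneg e]
      · have h1 : min (min 1 (‖u0‖ / (‖e‖ + 1))) (min (1 / 2 / (C * ‖x‖ * ‖e‖ + 1))
            (ε / (‖b'‖ + K * ‖e‖ + 1))) ≤ 1 / 2 / (C * ‖x‖ * ‖e‖ + 1) :=
          (min_le_right _ _).trans (min_le_left _ _)
        have h2 : 0 ≤ C * ‖x‖ * ‖e‖ := by positivity
        refine (mul_le_mul_of_nonneg_left h1 h2).trans ?_
        rw [← mul_div_assoc, div_le_iff₀ (by positivity)]
        nlinarith
      · have h1 : min (min 1 (‖u0‖ / (‖e‖ + 1))) (min (1 / 2 / (C * ‖x‖ * ‖e‖ + 1))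
            (ε / (‖b'‖ + K * ‖e‖ + 1))) ≤ ε / (‖b'‖ + K * ‖e‖ + 1) :=
          (min_le_right _ _).trans (min_le_right _ _)
        have h2 : 0 ≤ ‖b'‖ + K * ‖e‖ := by positivity
        refine lt_of_le_of_lt (mul_le_mul_of_nonneg_left h1 h2) ?_
        rw [← mul_div_assoc, div_lt_iff₀ (by positivity)]
        nlinarith
    obtain ⟨g, hg, hgx⟩ := hG h (‖x‖⁻¹ • x) hh1 hx1 η hη
    set f : E →L[ℝ] E := cj g e with hf
    set u : E := e (g h) with hu
    set w : E := b' (g h) with hw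
    have huu : ‖u - u0‖ ≤ ‖e‖ * η := by
      rw [hu, ← heu, ← map_sub]
      refine (e.le_opNorm _).trans ?_
      gcongr
    have hww : ‖w - w0‖ ≤ ‖b'‖ * η := by
      rw [hw, ← hbw, ← map_sub]
      refine (b'.le_opNorm _).trans ?_
      gcongr
    have hune : u ≠ 0 := by
      intro h0
      rw [h0, zero_sub, norm_neg] at huu
      linarith
    have hfg : f (g h) = g h := by rw [hf, cj_apply', eh]
    have hMf : Mn P f := he.conj H hg
    obtain ⟨μ, hμ, -, hμpos⟩ := hMf.lam H he.mem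
    have hef : e * f ≠ 0 := by
      intro h0
      apply hune
      have : e (f (g h)) = 0 := congrArg (fun z : E →L[ℝ] E => z (g h)) h0
      rwa [hfg] at this
    have hμ0 : 0 < μ := hμpos hef
    have hfu : f u = μ • g h := by
      have e1 : f (e (e (f (g h)))) = μ • f (g h) := congrArg (fun z : E →L[ℝ] E => z (g h)) hμ
      rw [hfg, he.app] at e1
      exact e1
    -- the element of `e A e`
    have hpP : (b' * f * e, e * (f * b)) ∈ P :=
      H.mul _ _ _ _ (H.mul _ _ _ _ (H.swap _ _ hbP) hMf.mem) he.mem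
    have hp := (DD P e).smul_mem μ⁻¹ (he.dd H hpP)
    set p := μ⁻¹ • ((e * (b' * f * e) * e, e * (e * (f * b)) * e) :
      (E →L[ℝ] E) × (E →L[ℝ] E)) with hpdef
    have hp1 : p.1 = μ⁻¹ • (b' * f * e) := by
      show μ⁻¹ • (e * (b' * f * e) * e) = _
      congr 1
      rw [mul_assoc, mul_assoc (b' * f), he.idem, ← mul_assoc, ← mul_assoc, heb']
    have hpu : p.1 u = w := by
      have e1 : p.1 u = μ⁻¹ • b' (f (e u)) := by rw [hp1]; rfl
      rw [e1, hu, he.app, ← hu, hfu, map_smul, smul_smul, inv_mul_cancel₀ hμ0.ne', one_smul]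
    have hδ := (hbd p hp).1
    have hph1 : p.1 h1 = ‖x‖ • p.1 u0 := by
      rw [hu0, map_smul, smul_smul, mul_inv_cancel₀ hxn.ne', one_smul]
    have hpu0 : ‖p.1 u0‖ ≤ ‖w‖ + ‖p.1‖ * (‖e‖ * η) := by
      have e1 : p.1 u0 = w - p.1 (u - u0) := by rw [map_sub, hpu]; abel
      rw [e1]
      refine (norm_sub_le _ _).trans ?_
      have := p.1.le_opNorm (u - u0)
      have e2 : ‖p.1‖ * ‖u - u0‖ ≤ ‖p.1‖ * (‖e‖ * η) := by gcongr
      linarith
    have hp2 : ‖p.1‖ ≤ K := by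
      have e1 : ‖p.1‖ ≤ C * (‖x‖ * (‖w‖ + ‖p.1‖ * (‖e‖ * η))) := by
        refine hδ.trans ?_
        rw [hph1, norm_smul, norm_norm]
        gcongr
      have e2 : ‖w‖ ≤ ‖w0‖ + ‖b'‖ := by
        have : w = w0 + (w - w0) := by abel
        rw [this]
        refine (norm_add_le _ _).trans ?_
        have : ‖b'‖ * η ≤ ‖b'‖ * 1 := by gcongr
        linarith
      have e3 : C * (‖x‖ * (‖w‖ + ‖p.1‖ * (‖e‖ * η))) =
          C * ‖x‖ * ‖w‖ + C * ‖x‖ * ‖e‖ * η * ‖p.1‖ := by ring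
      have e4 : C * ‖x‖ * ‖e‖ * η * ‖p.1‖ ≤ 1 / 2 * ‖p.1‖ := by gcongr
      have e5 : C * ‖x‖ * ‖w‖ ≤ C * ‖x‖ * (‖w0‖ + ‖b'‖) := by gcongr
      rw [hK]
      linarith
    refine ⟨p.1 u0, ?_, ?_⟩
    · rw [hu0, map_smul]
      exact D1.smul_mem _ ⟨p, hp, rfl⟩
    · rw [dist_eq_norm]
      have e1 : w0 - p.1 u0 = (w0 - w) + p.1 (u - u0) := by rw [map_sub, hpu]; abel
      rw [e1]
      refine lt_of_le_of_lt (norm_add_le _ _) ?_
      rw [norm_sub_rev w0 w]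
      have e2 := p.1.le_opNorm (u - u0)
      have e3 : ‖p.1‖ * ‖u - u0‖ ≤ K * (‖e‖ * η) := by gcongr
      have e4 : (‖b'‖ + K * ‖e‖) * η = ‖b'‖ * η + K * (‖e‖ * η) := by ring
      linarith
  rw [hD1closed.closure_eq] at hcl
  apply hmem
  have : h2 = (t⁻¹ * ‖x‖) • w0 := by
    rw [hw0, smul_smul, smul_smul]
    have : t⁻¹ * ‖x‖ * ‖x‖⁻¹ * t = 1 := by field_simp
    rw [this, one_smul]
  rw [this]
  exact D1.smul_mem _ hcl

/-- the vectors of the orbit of `h` are obtained from `h` by elements of the algebra -/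
theorem Mn.cyc (H : HP G P) (hG : AT G) (hE : ¬ FiniteDimensional ℝ E) {e : E →L[ℝ] E}
    (he : Mn P e) {h : E} (eh : e h = h) (hh : ‖h‖ = 1) :
    ∀ g ∈ G, ∃ a a', (a, a') ∈ P ∧ a h = g h := by
  have hsmall : ∀ g ∈ G, ‖g h - h‖ < (‖e‖ + 1)⁻¹ → ∃ a a', (a, a') ∈ P ∧ a h = g h := by
    intro g hg hgh
    have hMf : Mn P (cj g e) := he.conj H hg
    obtain ⟨a, a', ha, hah⟩ := hMf.one H hG hE (h1 := cj g e h) (h2 := g h) (hMf.app h)
      (Mn.cj_ne eh hh hgh) (by rw [cj_apply', eh])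
    exact ⟨a * cj g e, cj g e * a', H.mul _ _ _ _ ha hMf.mem, hah⟩
  obtain ⟨L, hL⟩ := exists_prod hE hG hh (by positivity : 0 < (‖e‖ + 1)⁻¹)
  intro g hg
  obtain ⟨l, -, hl, rfl⟩ := hL g hg
  clear hg
  induction l with
  | nil => exact ⟨e, e, he.mem, by simpa using eh⟩
  | cons k l ih =>
    have h1 := hl k (by simp)
    obtain ⟨a, a', ha, hah⟩ := ih (fun k hk => hl k (by simp [hk]))
    obtain ⟨b, b', hb, hbh⟩ := hsmall k h1.1 h1.2
    refine ⟨cj k a * b, b' * cj k a', H.mul _ _ _ _ (H.conj k h1.1 _ _ ha) hb, ?_⟩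
    show cj k a (b h) = _
    rw [hbh, cj_apply', hah, List.prod_cons]
    rfl

end HP

end Pool.Agent.J6H26.FR
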